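import Mathlib

/-!
From a sparse polynomial `f = ∑ c_j x^(e_j)` to a polynomial whose nonconstant terms are indexed by
its variables and have linearly independent exponent vectors.

Variables: `h = (0,0,0)`, `z = (1,0,0)`, `x_i = (2,i,0)`, `w_i = (3,i,0)`, `r_jk = (4,j,k)`.
Before the substitution `h ↦ h W`, `x_i ↦ x_i W` (with `W` the product of `z`, the `w_i` and the
`r_jk`) the polynomial is
`1 - 2h + h² z² + ∑ (x_i² w_i² - x_i²) + ∑ c_j c_k h² x^(e_j + e_k) r_jk² T^(N [j = k])`, where `T` is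
the product of the `r_pq²` with `p ≠ q`.
-/

namespace Pool.Agent.Lib.MP_c72338_lc

open Finset

abbrev Cd : Type := ℕ × ℕ × ℕ

def vars (m N : ℕ) : List Cd :=
  ((0, 0, 0) :: (1, 0, 0) :: (List.range m).map fun i => (2, i, 0)) ++
    ((List.range m).map fun i => (3, i, 0)) ++
      (List.range N).flatMap fun j => (List.range N).map fun k => (4, j, k)

def base (N : ℕ) (e : ℕ → ℕ → ℕ) (v u : Cd) : ℕ :=
  if v.1 = 0 then (if u.1 = 0 then 1 else 0)
  else if v.1 = 1 then (if u.1 ≤ 1 then 2 else 0)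
  else if v.1 = 2 then (if u.1 = 2 then (if u.2.1 = v.2.1 then 2 else 0) else 0)
  else if v.1 = 3 then
    (if u.2.1 = v.2.1 then (if u.1 = 2 then 2 else if u.1 = 3 then 2 else 0) else 0)
  else if u.1 = 0 then 2
  else if u.1 = 2 then e v.2.1 u.2.1 + e v.2.2 u.2.1
  else if u.1 = 4 then (if u.2 = v.2 then 2 else 0) +
    (if v.2.1 = v.2.2 then (if u.2.1 = u.2.2 then 0 else 2 * N) else 0)
  else 0

def isX (u : Cd) : Bool := if u.1 = 0 then true else decide (u.1 = 2)

def deg (m N : ℕ) (e : ℕ → ℕ → ℕ) (v : Cd) : ℕ :=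
  ((vars m N).map fun u => if isX u = true then base N e v u else 0).foldr (fun a b => a + b) 0

def expo (m N : ℕ) (e : ℕ → ℕ → ℕ) (v u : Cd) : ℕ :=
  base N e v u + if isX u = true then 0 else deg m N e v

def coef (c : ℕ → ℤ) (v : Cd) : ℤ :=
  if v.1 = 0 then -2 else if v.1 = 2 then -1 else if v.1 = 4 then c v.2.1 * c v.2.2 else 1

theorem mem_vars {m N : ℕ} {v : Cd} : v ∈ vars m N ↔ (v.1 ≤ 1 ∧ v.2.1 = 0 ∧ v.2.2 = 0) ∨
    ((v.1 = 2 ∨ v.1 = 3) ∧ v.2.1 < m ∧ v.2.2 = 0) ∨ (v.1 = 4 ∧ v.2.1 < N ∧ v.2.2 < N) := by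
  obtain ⟨s, j, k⟩ := v
  simp only [vars, List.mem_append, List.mem_cons, List.mem_map, List.mem_range, List.mem_flatMap,
    Prod.mk.injEq]
  constructor
  · rintro (((h | h | ⟨i, h⟩) | ⟨i, h⟩) | ⟨i, h, l, h'⟩) <;> omega
  · rintro (h | ⟨h | h, h'⟩ | h)
    · rcases (by omega : s = 0 ∨ s = 1) with h | h <;> simp [*]
    · exact .inl (.inl (.inr (.inr ⟨j, by omega⟩)))
    · exact .inl (.inr ⟨j, by omega⟩)
    · exact .inr ⟨j, by omega, k, by omega⟩

theorem nodup_vars (m N : ℕ) : (vars m N).Nodup := by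
  have h1 : ∀ s, ((List.range m).map fun i => ((s, i, 0) : Cd)).Nodup := fun s =>
    List.nodup_range.map fun a b h => by simpa using h
  have h2 : ((List.range N).flatMap fun j => (List.range N).map fun k => ((4, j, k) : Cd)).Nodup := by
    refine List.nodup_flatMap.2 ⟨fun j _ => List.nodup_range.map fun a b h => by simpa using h,
      List.nodup_range.imp fun {a b} h => ?_⟩
    simp only [Function.onFun, List.disjoint_left, List.mem_map]
    rintro _ ⟨k, -, rfl⟩ ⟨l, -, h'⟩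
    exact h (by simp at h'; omega)
  simp only [vars, List.nodup_append, List.nodup_cons, h1, h2]
  simp
  aesop

/-- The set of variables. -/
def S (m N : ℕ) : Finset Cd := (vars m N).toFinset

theorem prod_S {M : Type*} [CommMonoid M] (m N : ℕ) (g : Cd → M) : ∏ u ∈ S m N, g u =
    g (0, 0, 0) * g (1, 0, 0) * (∏ i ∈ range m, g (2, i, 0)) * (∏ i ∈ range m, g (3, i, 0)) *
      ∏ j ∈ range N, ∏ k ∈ range N, g (4, j, k) := by
  have h1 : ∀ (n : ℕ) (f : ℕ → M), ((List.range n).map f).prod = ∏ i ∈ range n, f i := by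
    intro n f
    rw [← List.prod_toFinset _ List.nodup_range, List.toFinset_range]
  have h2 : ∀ (l : List ℕ) (F : ℕ → List M), (l.flatMap F).prod = (l.map fun j => (F j).prod).prod := by
    intro l F; induction l <;> simp [*]
  rw [S, List.prod_toFinset _ (nodup_vars m N)]
  simp only [vars, List.map_append, List.map_cons, List.prod_append, List.prod_cons, List.map_map,
    List.map_flatMap, h2, h1, Function.comp_def, mul_assoc]

theorem sum_S {M : Type*} [AddCommMonoid M] (m N : ℕ) (g : Cd → M) : ∑ u ∈ S m N, g u =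
    g (0, 0, 0) + g (1, 0, 0) + (∑ i ∈ range m, g (2, i, 0)) + (∑ i ∈ range m, g (3, i, 0)) +
      ∑ j ∈ range N, ∑ k ∈ range N, g (4, j, k) :=
  prod_S (M := Multiplicative M) m N g

theorem deg_eq (m N : ℕ) (e : ℕ → ℕ → ℕ) (v : Cd) :
    deg m N e v = ∑ u ∈ S m N, if isX u = true then base N e v u else 0 := by
  rw [S, List.sum_toFinset _ (nodup_vars m N)]; rfl

section ring

variable {R : Type*} [CommRing R] (m N : ℕ) (e : ℕ → ℕ → ℕ) (c : ℕ → ℤ)

/-- The product of the multiplier variables. -/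
def W (η : Cd → R) : R := ∏ u ∈ S m N, if isX u = true then 1 else η u

def sc (η : Cd → R) (u : Cd) : R := if isX u = true then η u * W m N η else η u

theorem prod_expo (η : Cd → R) (v : Cd) :
    ∏ u ∈ S m N, η u ^ expo m N e v u = ∏ u ∈ S m N, sc m N η u ^ base N e v u := by
  have h1 : ∏ u ∈ S m N, η u ^ expo m N e v u =
      (∏ u ∈ S m N, η u ^ base N e v u) * W m N η ^ deg m N e v := by
    rw [W, ← prod_pow, ← prod_mul_distrib]
    refine prod_congr rfl fun u _ => ?_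
    rw [expo, pow_add]; split_ifs <;> simp
  rw [h1, deg_eq, ← prod_pow_eq_pow_sum, ← prod_mul_distrib]
  refine prod_congr rfl fun u _ => ?_
  rw [sc]; split_ifs <;> simp [mul_pow]

def mon (η : Cd → R) (j : ℕ) : R := ∏ p ∈ range m, η (2, p, 0) ^ e j p

def T (η : Cd → R) : R := ∏ p ∈ range N, ∏ q ∈ range N, if p = q then 1 else η (4, p, q) ^ 2

theorem val_base (η : Cd → R) :
    ∑ v ∈ S m N, (coef c v : R) * ∏ u ∈ S m N, η u ^ base N e v u =
      -2 * η (0, 0, 0) + η (0, 0, 0) ^ 2 * η (1, 0, 0) ^ 2 +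
        ∑ i ∈ range m, η (2, i, 0) ^ 2 * (η (3, i, 0) ^ 2 - 1) +
        ∑ j ∈ range N, ∑ k ∈ range N, (c j * η (0, 0, 0) * mon m e η j) *
          (c k * η (0, 0, 0) * mon m e η k) *
            (η (4, j, k) ^ 2 * if j = k then T N η ^ N else 1) := by
  rw [sum_S]
  have h23 : ∑ i ∈ range m, η (2, i, 0) ^ 2 * (η (3, i, 0) ^ 2 - 1) =
      ∑ i ∈ range m, (coef c (2, i, 0) : R) * ∏ u ∈ S m N, η u ^ base N e (2, i, 0) u +
      ∑ i ∈ range m, (coef c (3, i, 0) : R) * ∏ u ∈ S m N, η u ^ base N e (3, i, 0) u := by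
    rw [← sum_add_distrib]
    refine sum_congr rfl fun i hi => ?_
    simp only [prod_S, base, coef]
    simp [hi]
    ring
  have h4 : ∀ j ∈ range N, ∀ k ∈ range N,
      (coef c (4, j, k) : R) * ∏ u ∈ S m N, η u ^ base N e (4, j, k) u =
      (c j * η (0, 0, 0) * mon m e η j) * (c k * η (0, 0, 0) * mon m e η k) *
            (η (4, j, k) ^ 2 * if j = k then T N η ^ N else 1) := by
    intro j hj k hk
    have a1 : ∏ p ∈ range N, ∏ q ∈ range N, η (4, p, q) ^ (if (p, q) = (j, k) then 2 else 0) =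
        η (4, j, k) ^ 2 := by
      rw [prod_eq_single_of_mem j hj, prod_eq_single_of_mem k hk] <;> simp +contextual
    have a2 : ∏ p ∈ range N, ∏ q ∈ range N,
        η (4, p, q) ^ (if j = k then (if p = q then 0 else 2 * N) else 0) =
        if j = k then T N η ^ N else 1 := by
      split_ifs with h
      · simp only [T, ← prod_pow]
        refine prod_congr rfl fun p _ => prod_congr rfl fun q _ => ?_
        split_ifs <;> simp [pow_mul]
      · simp
    simp only [prod_S, base, coef]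
    simp only [OfNat.ofNat_ne_zero, OfNat.ofNat_ne_one, ↓reduceIte, Nat.reduceEqDiff, pow_add,
      prod_mul_distrib, a1, a2, mon, one_ne_zero, pow_zero, prod_const_one, Int.cast_mul]
    ring
  rw [h23, sum_congr rfl fun j hj => sum_congr rfl (h4 j hj)]
  simp only [prod_S, base, coef]
  simp
  ring

/-- The value of the constructed polynomial. -/
def PV (η : Cd → R) : R := 1 + ∑ v ∈ S m N, (coef c v : R) * ∏ u ∈ S m N, η u ^ expo m N e v u

theorem complete (x : ℕ → R) (h : ∑ j ∈ range N, (c j : R) * ∏ p ∈ range m, x p ^ e j p = 0) :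
    PV m N e c (fun u => if u.1 = 2 then x u.2.1 else 1) = 0 := by
  have hW : W m N (fun u => if u.1 = 2 then x u.2.1 else 1) = 1 := by
    simp [W, prod_S, isX]
  have hs : sc m N (fun u => if u.1 = 2 then x u.2.1 else 1) =
      fun u => if u.1 = 2 then x u.2.1 else 1 := by
    funext u; simp [sc, hW]
  simp only [PV, prod_expo, hs, val_base]
  simp [T, mon, ← sum_mul_sum, h]
  ring

end ring

section ordered

variable {R : Type*} [CommRing R] [LinearOrder R] [IsStrictOrderedRing R]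

theorem gram (N : ℕ) (a : ℕ → R) (ρ : ℕ → ℕ → R) (t : R) (ht : 1 ≤ t)
    (h1 : ∀ j ∈ range N, ∀ k ∈ range N, j ≠ k → 1 ≤ ρ j k ∧ ρ j k ≤ t)
    (h2 : ∀ j ∈ range N, 1 + N * (t - 1) ≤ ρ j j) :
    (∑ j ∈ range N, a j) ^ 2 ≤ ∑ j ∈ range N, ∑ k ∈ range N, a j * a k * ρ j k := by
  have key : ∀ j ∈ range N, ∀ k ∈ range N, 2 * (a j * a k) +
      ((if j = k then 2 * N * (t - 1) * a j ^ 2 else 0) - (t - 1) * a j ^ 2 - (t - 1) * a k ^ 2) ≤
        2 * (a j * a k * ρ j k) := by
    intro j hj k hk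
    split_ifs with h
    · subst h
      nlinarith [mul_nonneg (sq_nonneg (a j)) (sub_nonneg.2 (h2 j hj)),
        mul_nonneg (sq_nonneg (a j)) (sub_nonneg.2 ht)]
    · obtain ⟨l, u⟩ := h1 j hj k hk h
      nlinarith [mul_nonneg (sq_nonneg (a j + a k)) (sub_nonneg.2 l),
        mul_nonneg (add_nonneg (sq_nonneg (a j)) (sq_nonneg (a k))) (sub_nonneg.2 u)]
  have := sum_le_sum fun j hj => sum_le_sum (key j hj)
  simp only [sum_add_distrib, sum_sub_distrib, ← mul_sum, sum_const, card_range, nsmul_eq_mul,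
    ← sum_mul] at this
  rw [sum_congr rfl fun j hj => (sum_ite_eq _ _ _).trans (if_pos hj), ← mul_sum] at this
  nlinarith

theorem single_le_prod {s : Finset ℕ} {f : ℕ → R} (h : ∀ i ∈ s, 1 ≤ f i) {a : ℕ} (ha : a ∈ s) :
    f a ≤ ∏ i ∈ s, f i := by
  rw [← mul_prod_erase s f ha]
  exact le_mul_of_one_le_right (zero_le_one.trans (h a ha))
    (Finset.one_le_prod fun i hi => h i (mem_of_mem_erase hi))

theorem sound (m N : ℕ) (e : ℕ → ℕ → ℕ) (c : ℕ → ℤ) (η : Cd → R)
    (hη : ∀ u, η u = 0 ∨ 1 ≤ |η u|) (h : PV m N e c η = 0) :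
    ∃ x : ℕ → R, ∑ j ∈ range N, (c j : R) * ∏ p ∈ range m, x p ^ e j p = 0 := by
  simp only [PV, prod_expo, val_base] at h
  by_cases hW : W m N η = 0
  · simp [sc, isX, hW] at h
  have hU : ∀ u ∈ vars m N, isX u = false → 1 ≤ sc m N η u ^ 2 := by
    intro u hu hx
    have := prod_ne_zero_iff.1 hW u (List.mem_toFinset.2 hu)
    simp only [hx, Bool.false_eq_true, ↓reduceIte, sc] at this ⊢
    exact (one_le_sq_iff_one_le_abs _).2 ((hη u).resolve_left this)
  set ζ := sc m N η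
  have r1 : ∀ j ∈ range N, ∀ k ∈ range N, 1 ≤ ζ (4, j, k) ^ 2 := fun j hj k hk =>
    hU _ (mem_vars.2 (by simp [mem_range.1 hj, mem_range.1 hk])) rfl
  have r2 : ∀ j ∈ range N, ∀ k ∈ range N, 1 ≤ if j = k then 1 else ζ (4, j, k) ^ 2 :=
    fun j hj k hk => by split_ifs; exacts [le_rfl, r1 j hj k hk]
  have r3 : ∀ j ∈ range N, 1 ≤ ∏ k ∈ range N, if j = k then 1 else ζ (4, j, k) ^ 2 :=
    fun j hj => Finset.one_le_prod (r2 j hj)
  have hT : 1 ≤ T N ζ := Finset.one_le_prod r3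
  have g := gram N (fun j => c j * ζ (0, 0, 0) * mon m e ζ j)
    (fun j k => ζ (4, j, k) ^ 2 * if j = k then T N ζ ^ N else 1) (T N ζ) hT
    (fun j hj k hk h => by
      simp only [if_neg h, mul_one]
      refine ⟨r1 j hj k hk, le_trans ?_ (single_le_prod r3 hj)⟩
      simpa only [if_neg h] using single_le_prod (r2 j hj) hk)
    (fun j hj => by
      simp only [if_true]
      have := one_add_mul_le_pow (a := T N ζ - 1) (by linarith) N
      rw [add_sub_cancel] at this
      exact this.trans (le_mul_of_one_le_left (by positivity) (r1 j hj j hj)))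
  have g2 : 0 ≤ ∑ i ∈ range m, ζ (2, i, 0) ^ 2 * (ζ (3, i, 0) ^ 2 - 1) :=
    sum_nonneg fun i hi => mul_nonneg (sq_nonneg _) (sub_nonneg.2
      (hU _ (mem_vars.2 (by simp [mem_range.1 hi])) rfl))
  have g3 := mul_nonneg (sq_nonneg (ζ (0, 0, 0))) (sub_nonneg.2 (hU (1, 0, 0) (by simp [vars]) rfl))
  have e1 : ζ (0, 0, 0) - 1 = 0 := pow_eq_zero_iff two_ne_zero |>.1
    (le_antisymm (by nlinarith [sq_nonneg (∑ j ∈ range N, c j * ζ (0, 0, 0) * mon m e ζ j)])
      (sq_nonneg _))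
  have e2 : ∑ j ∈ range N, c j * ζ (0, 0, 0) * mon m e ζ j = 0 := pow_eq_zero_iff two_ne_zero |>.1
    (le_antisymm (by nlinarith [sq_nonneg (ζ (0, 0, 0) - 1)]) (sq_nonneg _))
  exact ⟨fun p => ζ (2, p, 0), by simpa only [sub_eq_zero.1 e1, mul_one, mon] using e2⟩

end ordered

/-- Rank function for the triangular shape of the exponent matrix. -/
def rk (v : Cd) : ℕ := if isX v = true then 2 else if v.1 = 4 ∧ v.2.1 ≠ v.2.2 then 1 else 0

theorem base_self (N : ℕ) (e : ℕ → ℕ → ℕ) {m : ℕ} {v : Cd} (hv : v ∈ vars m N) :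
    base N e v v ≠ 0 := by
  rw [mem_vars] at hv
  obtain ⟨s, j, k⟩ := v
  rcases (by omega : s = 0 ∨ s = 1 ∨ s = 2 ∨ s = 3 ∨ s = 4) with rfl | rfl | rfl | rfl | rfl <;>
  simp [base]

theorem base_rk (N : ℕ) (e : ℕ → ℕ → ℕ) {m : ℕ} {v u : Cd} (hv : v ∈ vars m N) (hu : u ∈ vars m N)
    (hne : v ≠ u) (h : base N e v u ≠ 0) : rk v < rk u := by
  rw [mem_vars] at hv hu
  obtain ⟨s, j, k⟩ := v
  obtain ⟨t, p, q⟩ := u
  simp only [ne_eq, Prod.mk.injEq] at hv hu hne
  rcases (by omega : s = 0 ∨ s = 1 ∨ s = 2 ∨ s = 3 ∨ s = 4) with rfl | rfl | rfl | rfl | rfl <;>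
  rcases (by omega : t = 0 ∨ t = 1 ∨ t = 2 ∨ t = 3 ∨ t = 4) with rfl | rfl | rfl | rfl | rfl <;>
  simp [base, rk, isX] at h ⊢ <;> first | omega | (split_ifs <;> omega)

theorem indep (m N : ℕ) (e : ℕ → ℕ → ℕ) (l : Cd → ℚ)
    (h : ∀ u ∈ S m N, ∑ v ∈ S m N, l v * expo m N e v u = 0) : ∀ v ∈ S m N, l v = 0 := by
  have h1 : ∑ v ∈ S m N, l v * deg m N e v = 0 := by
    simp only [deg_eq, Nat.cast_sum, mul_sum]
    rw [sum_comm]
    refine sum_eq_zero fun u hu => ?_
    by_cases hx : isX u = true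
    · simpa [expo, hx] using h u hu
    · simp [hx]
  have h2 : ∀ u ∈ S m N, ∑ v ∈ S m N, l v * base N e v u = 0 := fun u hu => by
    have := h u hu
    by_cases hx : isX u = true
    · simpa [expo, hx] using this
    · simpa [expo, hx, mul_add, sum_add_distrib, h1] using this
  intro v hv
  induction hr : rk v using Nat.strong_induction_on generalizing v with
  | _ r ih =>
    have := h2 v hv
    rw [sum_eq_single_of_mem v hv fun u hu hne => ?_] at this
    · exact (mul_eq_zero.1 this).resolve_right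
        (Nat.cast_ne_zero.2 (base_self N e (List.mem_toFinset.1 hv)))
    · by_cases hb : base N e u v = 0
      · simp [hb]
      · rw [ih _ (hr ▸ base_rk N e (List.mem_toFinset.1 hu) (List.mem_toFinset.1 hv) hne hb) u hu rfl,
          zero_mul]

theorem coef_ne (m N : ℕ) (c : ℕ → ℤ) (hc : ∀ j < N, c j ≠ 0) {v : Cd} (hv : v ∈ vars m N) :
    coef c v ≠ 0 := by
  rw [mem_vars] at hv
  unfold coef
  split_ifs
  · decide
  · decide
  · exact mul_ne_zero (hc _ (by omega)) (hc _ (by omega))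
  · decide

end Pool.Agent.Lib.MP_c72338_lc
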