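import Mathlib

/-! Sparse integer polynomials given as lists of terms. -/

namespace Pool.Agent.Lib.MP_c72338_lc

/-- The value at `x` of the polynomial `∑ c * x ^ a`, the sum being over the pairs `(c, a)` of the
list `P`; the exponent of the variable number `i` is the entry number `i` of `a`. -/
def ev {R : Type} [CommRing R] (P : List (ℤ × List ℕ)) (x : ℕ → R) : R :=
  (P.map fun t => (t.1 : R) * ∏ i : Fin t.2.length, x i ^ t.2[i]).sum

/-- `P` has `n + 1` terms in `n` variables, all coefficients are nonzero and the exponent vectors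
are affinely independent. -/
def Honest (n : ℕ) (P : List (ℤ × List ℕ)) : Prop :=
  P.length = n + 1 ∧ (∀ t ∈ P, t.1 ≠ 0 ∧ t.2.length = n) ∧
    AffineIndependent ℚ fun (j : Fin P.length) (i : Fin n) => ((P[j].2.getD i 0 : ℕ) : ℚ)

end Pool.Agent.Lib.MP_c72338_lc
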