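import Pool.Agent.Lib.MP_c72338_lc.Core

/-! The construction with numbered variables and terms. -/

namespace Pool.Agent.Lib.MP_c72338_lc

open Finset

variable (m N : ℕ) (e : ℕ → ℕ → ℕ) (c : ℕ → ℤ)

def finA : Fin ((vars m N).length + 1) → Fin (vars m N).length → ℕ :=
  Fin.cons 0 fun j i => expo m N e (vars m N)[j] (vars m N)[i]

def finC : Fin ((vars m N).length + 1) → ℤ := Fin.cons 1 fun j => coef c (vars m N)[j]

theorem prod_fin {M : Type*} [CommMonoid M] (g : Cd → M) :
    ∏ u ∈ S m N, g u = ∏ i : Fin (vars m N).length, g (vars m N)[i] := by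
  rw [S, List.prod_toFinset _ (nodup_vars m N), ← Fin.prod_univ_fun_getElem]; rfl

theorem sum_fin {M : Type*} [AddCommMonoid M] (g : Cd → M) :
    ∑ u ∈ S m N, g u = ∑ i : Fin (vars m N).length, g (vars m N)[i] :=
  prod_fin (M := Multiplicative M) m N g

theorem fin_val {R : Type*} [CommRing R] (η : Cd → R) :
    ∑ j, (finC m N c j : R) * ∏ i, η (vars m N)[i] ^ finA m N e j i = PV m N e c η := by
  simp [PV, Fin.sum_univ_succ, finC, finA, sum_fin, prod_fin]

theorem idx_get (i : Fin (vars m N).length) : (vars m N).idxOf (vars m N)[i] = i :=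
  (nodup_vars m N).idxOf_getElem _ _

theorem fin_indep : AffineIndependent ℚ fun j i => (finA m N e j i : ℚ) := by
  rw [affineIndependent_iff_of_fintype]
  intro w h0 h1
  rw [Finset.weightedVSub_eq_linear_combination _ h0] at h1
  have h2 := indep m N e
    (fun v => if h : (vars m N).idxOf v < (vars m N).length then w (Fin.succ ⟨_, h⟩) else 0)
    fun u hu => by
      obtain ⟨i, hi, rfl⟩ := List.getElem_of_mem (List.mem_toFinset.1 hu)
      have := congrFun h1 ⟨i, hi⟩
      simp only [sum_fin, idx_get, Fin.is_lt, ↓reduceDIte, Fin.eta]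
      simpa [Fin.sum_univ_succ, finA] using this
  have h3 : ∀ j : Fin (vars m N).length, w j.succ = 0 := fun j => by
    simpa only [idx_get, Fin.is_lt, ↓reduceDIte, Fin.eta] using
      h2 (vars m N)[j] (List.mem_toFinset.2 (List.getElem_mem _))
  refine Fin.cases ?_ h3
  simpa [Fin.sum_univ_succ, h3] using h0

theorem finC_ne (hc : ∀ j < N, c j ≠ 0) (j) : finC m N c j ≠ 0 :=
  Fin.cases one_ne_zero (fun _ => coef_ne m N c hc (List.getElem_mem _)) j

variable {R : Type*} [CommRing R] [LinearOrder R] [IsStrictOrderedRing R]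

omit [IsStrictOrderedRing R] in
theorem fin_complete (y : ℕ → R) (hy : ∀ p < m, 1 ≤ y p)
    (h : ∑ j ∈ range N, (c j : R) * ∏ p ∈ range m, y p ^ e j p = 0) :
    ∃ x : Fin (vars m N).length → R, (∀ i, 1 ≤ x i) ∧
      ∑ j, (finC m N c j : R) * ∏ i, x i ^ finA m N e j i = 0 := by
  refine ⟨_, fun i => ?_, (fin_val m N e c _).trans (complete m N e c y h)⟩
  have := mem_vars.1 (List.getElem_mem (l := vars m N) i.2)
  split_ifs with h
  · exact hy _ (by simp only [Fin.getElem_fin] at *; omega)
  · exact le_rfl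

theorem fin_sound (x : Fin (vars m N).length → R) (hx : ∀ i, x i = 0 ∨ 1 ≤ |x i|)
    (h : ∑ j, (finC m N c j : R) * ∏ i, x i ^ finA m N e j i = 0) :
    ∃ y : ℕ → R, ∑ j ∈ range N, (c j : R) * ∏ p ∈ range m, y p ^ e j p = 0 := by
  refine sound m N e c
    (fun v => if h : (vars m N).idxOf v < (vars m N).length then x ⟨_, h⟩ else 0) (fun u => ?_) ?_
  · split_ifs
    exacts [hx _, .inl rfl]
  · rw [← fin_val]
    simpa only [idx_get, Fin.is_lt, ↓reduceDIte, Fin.eta] using h

theorem enc_int (z : ℤ) : Encodable.encode z = if 0 ≤ z then 2 * z.natAbs else 2 * z.natAbs - 1 := by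
  cases z with
  | ofNat n => simp; rfl
  | negSucc n =>
    rw [if_neg (by omega), Int.natAbs_negSucc]
    change 2 * n + 1 = _
    omega

theorem prim_cast : Primrec fun n : ℕ => (n : ℤ) :=
  Primrec.encode_iff.1 ((Primrec.nat_mul.comp (.const 2) .id).of_eq fun n => by simp [enc_int])

theorem prim_negCast : Primrec fun n : ℕ => -(n : ℤ) :=
  Primrec.encode_iff.1 ((Primrec.nat_sub.comp (Primrec.nat_mul.comp (.const 2) .id)
    (.const 1)).of_eq fun n => by
      rw [enc_int]; split_ifs with h
      · simp at h; simp [h]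
      · simp)

theorem prim_natAbs : Primrec Int.natAbs :=
  (Primrec.nat_div.comp (Primrec.succ.comp Primrec.encode) (.const 2)).of_eq fun z => by
    rw [enc_int]; split_ifs <;> omega

theorem prim_nonneg : PrimrecPred fun z : ℤ => 0 ≤ z :=
  (Primrec.eq.comp (Primrec.nat_mod.comp Primrec.encode (.const 2)) (.const 0)).of_eq fun z => by
    rw [enc_int]; split_ifs <;> omega

theorem prim_neg : Primrec fun z : ℤ => -z :=
  (Primrec.ite prim_nonneg (prim_negCast.comp prim_natAbs) (prim_cast.comp prim_natAbs)).of_eq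
    fun z => by split_ifs <;> omega

theorem prim_mul : Primrec₂ fun a b : ℤ => a * b := by
  have h : Primrec fun p : ℤ × ℤ => ((p.1.natAbs * p.2.natAbs : ℕ) : ℤ) :=
    prim_cast.comp (Primrec.nat_mul.comp (prim_natAbs.comp .fst) (prim_natAbs.comp .snd))
  refine (Primrec.ite (prim_nonneg.comp .fst)
    (Primrec.ite (prim_nonneg.comp .snd) h (prim_neg.comp h))
    (Primrec.ite (prim_nonneg.comp .snd) (prim_neg.comp h) h)).of_eq fun p => ?_
  split_ifs with a b b <;> simp only [Nat.cast_mul, Int.natCast_natAbs]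
  · rw [abs_of_nonneg a, abs_of_nonneg b]
  · rw [abs_of_nonneg a, abs_of_neg (not_le.1 b)]; ring
  · rw [abs_of_nonneg b, abs_of_neg (not_le.1 a)]; ring
  · rw [abs_of_neg (not_le.1 b), abs_of_neg (not_le.1 a)]; ring

end Pool.Agent.Lib.MP_c72338_lc
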