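import Mathlib

/-! Local lemmas on Artin-Schreier equations for a discrete valuation in positive characteristic.
The number `p` is a power of the characteristic that is at least three. -/

namespace Pool.Agent.Lib.MP_c72338_lc.Ph

open WithZero

/-- `p` is a power of the characteristic of `R` and is at least three. -/
class Fq (R : Type) [CommRing R] (p : ℕ) : Prop where
  three : 3 ≤ p
  ex : ∃ l e : ℕ, l.Prime ∧ CharP R l ∧ p = l ^ e

section

variable {R : Type} [CommRing R] (p : ℕ) [h : Fq R p]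

theorem hom (s : ℕ) : ∃ φ : R →+* R, ∀ x, x ^ p ^ s = φ x := by
  obtain ⟨l, e, hl, _, rfl⟩ := h.ex
  have := Fact.mk hl
  exact ⟨iterateFrobenius R l (e * s), fun x => by rw [iterateFrobenius_def, pow_mul l]⟩

variable {p}

theorem addqs (a b : R) (s : ℕ) : (a + b) ^ p ^ s = a ^ p ^ s + b ^ p ^ s := by
  obtain ⟨φ, h⟩ := hom (R := R) p s
  simp only [h, map_add]
theorem subqs (a b : R) (s : ℕ) : (a - b) ^ p ^ s = a ^ p ^ s - b ^ p ^ s := by
  obtain ⟨φ, h⟩ := hom (R := R) p s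
  simp only [h, map_sub]
theorem negqs (a : R) (s : ℕ) : (-a) ^ p ^ s = -a ^ p ^ s := by
  obtain ⟨φ, h⟩ := hom (R := R) p s
  simp only [h, map_neg]
theorem addq (a b : R) : (a + b) ^ p = a ^ p + b ^ p := by simpa using addqs (p := p) a b 1
theorem subq (a b : R) : (a - b) ^ p = a ^ p - b ^ p := by simpa using subqs (p := p) a b 1
theorem negq (a : R) : (-a) ^ p = -a ^ p := by simpa using negqs (p := p) a 1

variable (R p) in
theorem castq : (p : R) = 0 := by
  obtain ⟨l, e, -, _, rfl⟩ := h.ex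
  have := h.three
  rw [Nat.cast_pow, CharP.cast_eq_zero, zero_pow]
  rintro rfl
  simp at this

variable (R) in
include h in
theorem neq : p ≠ 0 := by have := h.three; omega

end

variable {K : Type} [Field K]

instance {p : ℕ} [h : Fq K p] : Fq (Polynomial K) p :=
  ⟨h.three, let ⟨l, e, a, _, b⟩ := h.ex; ⟨l, e, a, inferInstance, b⟩⟩

instance {p : ℕ} [h : Fq K p] : Fq (RatFunc K) p :=
  ⟨h.three, let ⟨l, e, a, _, b⟩ := h.ex; ⟨l, e, a, inferInstance, b⟩⟩

theorem powq_inj (p : ℕ) [Fq K p] : Function.Injective fun x : K => x ^ p := fun a b h =>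
  sub_eq_zero.1 (pow_eq_zero_iff (neq K) |>.1 ((subq a b).trans (sub_eq_zero.2 h)))

/-- `z` is of the form `r ^ p - r`. -/
def AS (p : ℕ) (z : K) : Prop := ∃ r : K, z = r ^ p - r

section chr

variable {p : ℕ} [Fq K p]

theorem AS.desc {A B : K} (h : AS p (A ^ p - B)) : AS p (A - B) := by
  obtain ⟨r, h⟩ := h
  exact ⟨r - A, by rw [subq]; linear_combination h⟩

theorem AS.iter (z : K) (s : ℕ) : AS p (z ^ p ^ s - z) := by
  induction s with
  | zero => exact ⟨0, by simp [neq K]⟩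
  | succ s ih =>
    obtain ⟨r, h⟩ := ih
    exact ⟨r + z ^ p ^ s, by rw [addq, pow_succ, pow_mul]; linear_combination h⟩

end chr

variable (w : Valuation K ℤᵐ⁰) {p : ℕ} {t : K}

theorem ex_exp {x : K} (hx : x ≠ 0) : ∃ k : ℤ, w x = exp k :=
  ⟨log (w x), (exp_log (by simpa using hx)).symm⟩

theorem ex_pos {x : K} (hx : 1 < w x) : ∃ k : ℤ, 0 < k ∧ w x = exp k := by
  obtain ⟨k, hk⟩ := ex_exp w (x := x) (by rintro rfl; simp at hx)
  exact ⟨k, by rwa [hk, ← exp_zero, exp_lt_exp] at hx, hk⟩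

theorem val_pow {x : K} {k : ℤ} (h : w x = exp k) (n : ℕ) : w (x ^ n) = exp (n * k) := by
  rw [map_pow, h, ← exp_nsmul, nsmul_eq_mul]

theorem pow_le {x : K} (h : w x ≤ 1) (n : ℕ) : w (x ^ n) ≤ 1 := by
  rw [map_pow]; exact pow_le_one' h n

theorem mul_le {x y : K} {γ : ℤᵐ⁰} (h : w x ≤ 1) (h' : w y ≤ γ) : w (x * y) ≤ γ := by
  rw [map_mul]; exact (mul_le_of_le_one_left' h).trans h'

theorem wp_val (hp : 2 ≤ p) {r : K} {k : ℤ} (hk : 0 < k) (h : w r = exp k) :
    w (r ^ p - r) = exp (p * k) := by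
  rw [w.map_sub_eq_of_lt_left, val_pow w h]
  rw [val_pow w h, h, exp_lt_exp]
  nlinarith

theorem AS.val (hp : 2 ≤ p) {z : K} (h : AS p z) (h1 : 1 < w z) :
    ∃ k : ℤ, 0 < k ∧ w z = exp (p * k) := by
  obtain ⟨r, rfl⟩ := h
  obtain ⟨k, hk, h⟩ := ex_pos w (x := r)
    (not_le.1 fun hr => h1.not_ge (w.map_sub_le (pow_le w hr _) hr))
  exact ⟨k, hk, wp_val w hp hk h⟩

variable (ht : w t ≤ 1) (hS : ∀ z : K, exp (-1) ≤ w (z ^ p - t))

include ht hS

omit ht in
theorem pole_le (x c : K) (hc : w c ≤ 1) : w (1 + c / (x ^ p - t)) ≤ exp 1 := by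
  have h0 : x ^ p - t ≠ 0 := fun h => by simpa [h] using hS x
  refine w.map_add_le (by rw [map_one, ← exp_zero, exp_le_exp]; norm_num) ?_
  obtain ⟨k, hk⟩ := ex_exp w h0
  have := hS x
  rw [hk, exp_le_exp] at this
  rw [div_eq_mul_inv]
  refine mul_le w hc ?_
  rw [map_inv₀, hk, ← exp_neg, exp_le_exp]
  omega

theorem loc1 (hp : 3 ≤ p) {r s α β : K} (hα : w α ≤ 1) (hβ : w β ≤ 1)
    (h : t * r ^ p - s ^ p = α * r + β * s) : w r ≤ 1 ∧ w s ≤ 1 := by
  have h1 : w s ≤ w r ∨ w s ≤ 1 := by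
    by_contra h1
    rw [not_or, not_le, not_le] at h1
    obtain ⟨k, hk, hs⟩ := ex_pos w h1.2
    have h2 : w (α * r + β * s) ≤ exp k :=
      w.map_add_le (mul_le w hα (hs ▸ h1.1.le)) (mul_le w hβ hs.le)
    rw [← h, w.map_sub_eq_of_lt_right, val_pow w hs, exp_le_exp] at h2
    · nlinarith
    · refine (mul_le w ht le_rfl).trans_lt ?_
      rw [map_pow, map_pow]
      exact pow_lt_pow_left₀ h1.1 zero_le (by omega)
  have h2 : w r ≤ 1 := by
    by_contra h2
    rw [not_le] at h2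
    obtain ⟨k, hk, hr⟩ := ex_pos w h2
    have hr0 : r ≠ 0 := by rintro rfl; simp at h2
    have h3 : w (α * r + β * s) ≤ exp k :=
      w.map_add_le (mul_le w hα hr.le) (mul_le w hβ (hr ▸ h1.elim id fun h => h.trans h2.le))
    rw [← h, show t * r ^ p - s ^ p = -(r ^ p * ((s / r) ^ p - t)) by rw [div_pow]; field_simp; ring,
      w.map_neg, map_mul, val_pow w hr] at h3
    have h4 := (mul_le_mul_right (hS (s / r)) _).trans h3
    rw [← exp_add, exp_le_exp] at h4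
    nlinarith
  exact ⟨h2, h1.elim (fun h => h.trans h2) id⟩

theorem loc2 {j : ℕ} (hj : p = j + 1) (hp : 3 ≤ p) {u v τ : K} (hτ : w τ ≤ 1) (hu : w u ≤ exp 1)
    (h1 : AS p (v ^ j - u ^ j)) (h2 : AS p (τ ^ p * v ^ j - t * u ^ j)) (hv : 1 < w v) :
    ∃ k : ℤ, w v = exp (p * k) := by
  obtain ⟨k, hk, hv⟩ := ex_pos w hv
  have hj' : (p : ℤ) = j + 1 := by exact_mod_cast hj
  have hu2 : w (u ^ j) ≤ exp (j : ℤ) := by
    rw [map_pow]
    exact (pow_le_pow_left' hu j).trans (by rw [← exp_nsmul]; simp)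
  by_cases h3 : 1 < w (v ^ j - u ^ j)
  · obtain ⟨l, hl, h4⟩ := h1.val w (by omega) h3
    have h5 := w.map_add_eq_of_lt_left (x := v ^ j - u ^ j) (y := u ^ j)
      (hu2.trans_lt (by rw [h4, exp_lt_exp]; nlinarith))
    rw [sub_add_cancel, val_pow w hv, h4, exp_inj] at h5
    exact ⟨k - l, hv.trans (congrArg _ (by linear_combination -h5 - k * hj'))⟩
  · rw [not_lt] at h3
    have hj2 : (2 : ℤ) ≤ j := by omega
    have h4 := w.map_sub_eq_of_lt_left (x := v ^ j) (y := v ^ j - u ^ j)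
      (h3.trans_lt (by rw [val_pow w hv, ← exp_zero, exp_lt_exp]; nlinarith))
    rw [sub_sub_cancel, val_pow w hv] at h4
    have h5 : exp 1 ≤ w ((τ ^ p - t) * u ^ j) := by
      rw [map_mul, h4]
      refine le_trans ?_ (mul_le_mul_left (hS τ) _)
      rw [← exp_add, exp_le_exp]; nlinarith
    have h6 : w ((τ ^ p - t) * u ^ j) ≤ exp (j : ℤ) :=
      mul_le w (w.map_sub_le (pow_le w hτ _) ht) hu2
    have h7 : 1 < w ((τ ^ p - t) * u ^ j) := lt_of_lt_of_le (by rw [← exp_zero, exp_lt_exp]; omega) h5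
    have h8 := w.map_add_eq_of_lt_left (x := (τ ^ p - t) * u ^ j) (y := τ ^ p * (v ^ j - u ^ j))
      ((mul_le w (pow_le w hτ _) h3).trans_lt h7)
    rw [show (τ ^ p - t) * u ^ j + τ ^ p * (v ^ j - u ^ j) = τ ^ p * v ^ j - t * u ^ j by ring] at h8
    obtain ⟨l, hl, h9⟩ := h2.val w (by omega) (h8 ▸ h7)
    rw [← h8, h9, exp_le_exp] at h6
    nlinarith

end Pool.Agent.Lib.MP_c72338_lc.Ph
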