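import Pool.Agent.Lib.MP_c72338_lc.Ph1

/-! The relation `y = x ^ p ^ s` in a rational function field over a finite field, after
Pheidas. -/

namespace Pool.Agent.Lib.MP_c72338_lc.Ph

open WithZero Polynomial IsDedekindDomain

variable {F : Type} [Field F] {p : ℕ} [hpp : Fq F p]

/-- Places at finite distance. -/
abbrev Pl (F : Type) [Field F] : Type := HeightOneSpectrum F[X]

noncomputable abbrev vl (v : Pl F) : Valuation (RatFunc F) ℤᵐ⁰ := v.valuation (RatFunc F)

noncomputable abbrev am : F[X] →+* RatFunc F := algebraMap F[X] (RatFunc F)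

theorem vl_am (v : Pl F) (f : F[X]) : vl v (am f) ≤ 1 := v.valuation_le_one f

theorem vl_X (v : Pl F) : vl v RatFunc.X ≤ 1 := vl_am v X

theorem lt_one_iff {x : ℤᵐ⁰} : x < 1 ↔ x ≤ exp (-1) := by
  rcases eq_or_ne x 0 with rfl | h
  · simp
  · rw [← exp_log h, ← exp_zero, exp_lt_exp, exp_le_exp]; omega

theorem simple (v : Pl F) (z : RatFunc F) : exp (-1) ≤ vl v (z ^ p - RatFunc.X) := by
  rcases lt_or_ge 1 (vl v z) with h | h
  · obtain ⟨k, hk, h⟩ := ex_pos _ h
    have : 0 < p := Nat.pos_of_ne_zero (neq F)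
    rw [Valuation.map_sub_eq_of_lt_left, val_pow _ h, exp_le_exp]
    · nlinarith
    · refine (vl_X v).trans_lt ?_
      rw [val_pow _ h, ← exp_zero, exp_lt_exp]
      positivity
  · obtain ⟨a, ⟨b, hb⟩, hab⟩ := v.exists_primeCompl_mul_eq_of_integer z h
    by_contra h1
    have h2 : v.intValuation (a ^ p - X * b ^ p) ≤ exp (-((2 : ℕ) : ℤ)) := by
      rw [← v.valuation_of_algebraMap (K := RatFunc F)]
      have : am (a ^ p - X * b ^ p) = am b ^ p * (z ^ p - RatFunc.X) := by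
        simp only [map_sub, map_mul, map_pow, RatFunc.algebraMap_X, ← hab]
        ring
      refine (congrArg _ this).trans_le (mul_le _ (pow_le _ (vl_am v b) _) ?_)
      rcases eq_or_ne (z ^ p - RatFunc.X) 0 with h0 | h0
      · simp [h0]
      · obtain ⟨k, hk⟩ := ex_exp (vl v) h0
        rw [hk, exp_le_exp] at h1 ⊢
        omega
    obtain ⟨π, hπ⟩ := (IsPrincipalIdealRing.principal v.asIdeal).principal
    rw [v.intValuation_le_pow_iff_mem, hπ, Ideal.submodule_span_eq, Ideal.span_singleton_pow,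
      Ideal.mem_span_singleton] at h2
    obtain ⟨c, hc⟩ := h2
    have h3 := congrArg derivative hc
    simp only [derivative_sub, derivative_mul, derivative_pow, castq F p, C_0, zero_mul,
      derivative_X, mul_zero, one_mul, add_zero, zero_sub] at h3
    refine hb (v.isPrime.mem_of_pow_mem p ?_)
    rw [hπ, Ideal.submodule_span_eq, Ideal.mem_span_singleton]
    exact ⟨-(C 2 * derivative π * c + π * derivative c), by
      simp only [Nat.cast_ofNat] at h3; linear_combination -h3⟩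

theorem wp_deg (b : F[X]) : p ∣ (b ^ p - b).natDegree := by
  rcases Nat.eq_zero_or_pos b.natDegree with h | h
  · rw [eq_C_of_natDegree_eq_zero h, ← C_pow, ← C_sub, natDegree_C]
    exact dvd_zero _
  · rw [natDegree_sub_eq_left_of_natDegree_lt, natDegree_pow]
    · exact dvd_mul_right _ _
    · rw [natDegree_pow]
      nlinarith [hpp.three]

theorem deg_zero {A b : F[X]} (hA : p ∣ A.natDegree) (h : X * A = b ^ p - b) : A = 0 := by
  by_contra h0
  have h1 := wp_deg (p := p) b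
  rw [← h, natDegree_X_mul h0, Nat.dvd_add_right hA] at h1
  have := hpp.three
  have := Nat.dvd_one.1 h1
  omega

theorem glob1 {r s : RatFunc F} (α β : F[X])
    (h : RatFunc.X * r ^ p - s ^ p = am α * r + am β * s) :
    (∃ a, am a = r) ∧ ∃ b, am b = s :=
  ⟨HeightOneSpectrum.mem_integers_of_valuation_le_one _ _ fun v =>
    (loc1 _ (vl_X v) (simple v) hpp.three (vl_am v α) (vl_am v β) h).1,
  HeightOneSpectrum.mem_integers_of_valuation_le_one _ _ fun v =>
    (loc1 _ (vl_X v) (simple v) hpp.three (vl_am v α) (vl_am v β) h).2⟩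

theorem as_zero {δ : RatFunc F} (h1 : AS p δ) (h2 : AS p (RatFunc.X * δ)) : δ = 0 := by
  obtain ⟨r, rfl⟩ := h1
  obtain ⟨s, h⟩ := h2
  obtain ⟨⟨a, rfl⟩, b, rfl⟩ := glob1 (p := p) (r := r) (s := s) X (-1)
    (by simp only [RatFunc.algebraMap_X, map_neg, map_one]; linear_combination h)
  have := deg_zero (wp_deg a) (b := b) (IsFractionRing.injective F[X] (RatFunc F) (by simpa using h))
  rw [← map_pow, ← map_sub, this, map_zero]

variable [Finite F]

theorem poly_pow (n : ℕ) : ∀ M : F[X], M.natDegree = n → M ≠ 0 →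
    (∀ v : Pl F, ∃ k : ℤ, vl v (am M) = exp (p * k)) → ∃ g, M = g ^ p := by
  induction n using Nat.strong_induction_on with
  | _ n ih =>
  intro M hn h0 h
  by_cases hu : IsUnit M
  · obtain ⟨c, -, rfl⟩ := isUnit_iff.1 hu
    obtain ⟨d, rfl⟩ := Finite.injective_iff_surjective.1 (powq_inj p) c
    exact ⟨C d, by simp⟩
  obtain ⟨π, hπ, hd⟩ := WfDvdMonoid.exists_irreducible_factor hu h0
  let v : Pl F := ⟨Ideal.span {π}, (Ideal.span_singleton_prime hπ.ne_zero).2 hπ.prime,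
    by simpa using hπ.ne_zero⟩
  obtain ⟨k, hk⟩ := h v
  have h1 : vl v (am M) < 1 := (v.valuation_lt_one_iff_mem M).2 (Ideal.mem_span_singleton.2 hd)
  have h2 : v.intValuation M ≤ exp (-(p : ℤ)) := by
    rw [← v.valuation_of_algebraMap (K := RatFunc F)]
    refine hk.trans_le ?_
    rw [hk, ← exp_zero, exp_lt_exp] at h1
    have : k < 0 := by by_contra h; nlinarith [hpp.three]
    rw [exp_le_exp]
    nlinarith [hpp.three]
  rw [v.intValuation_le_pow_iff_mem, Ideal.span_singleton_pow, Ideal.mem_span_singleton] at h2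
  obtain ⟨N, rfl⟩ := h2
  have hN : N ≠ 0 := right_ne_zero_of_mul h0
  obtain ⟨g, rfl⟩ := ih N.natDegree (by
    rw [← hn, natDegree_mul (pow_ne_zero _ hπ.ne_zero) hN, natDegree_pow]
    nlinarith [hπ.natDegree_pos, hpp.three]) N rfl hN fun u => by
      obtain ⟨a, ha⟩ := h u
      obtain ⟨b, hb⟩ := ex_exp (vl u) (x := am π) (by simpa using hπ.ne_zero)
      obtain ⟨c, hc⟩ := ex_exp (vl u) (x := am N) (by simpa using hN)
      rw [map_mul, map_pow, map_mul, val_pow _ hb, hc, ← exp_add, exp_inj] at ha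
      exact ⟨a - b, by rw [hc, exp_inj]; linear_combination ha⟩
  exact ⟨π * g, by ring⟩

theorem is_pow {x : RatFunc F} (h0 : x ≠ 0) (h : ∀ v : Pl F, ∃ k : ℤ, vl v x = exp (p * k)) :
    ∃ g, x = g ^ p := by
  obtain ⟨q, hq⟩ := Nat.exists_eq_succ_of_ne_zero (neq (p := p) F)
  have hd : am x.denom ≠ 0 := by simpa using x.denom_ne_zero
  have e : am (x.num * x.denom ^ q) = x * am x.denom ^ p := by
    nth_rewrite 3 [← x.num_div_denom]
    rw [map_mul, map_pow, hq, pow_succ]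
    field_simp
  obtain ⟨g, hg⟩ := poly_pow (p := p) _ (x.num * x.denom ^ q) rfl
    (mul_ne_zero (RatFunc.num_ne_zero h0) (pow_ne_zero _ x.denom_ne_zero)) fun v => by
      obtain ⟨a, ha⟩ := h v
      obtain ⟨b, hb⟩ := ex_exp (vl v) hd
      exact ⟨a + b, by rw [e, map_mul, val_pow _ hb, ha, ← exp_add, mul_add]⟩
  refine ⟨am g / am x.denom, ?_⟩
  rw [div_pow, ← map_pow, ← hg, e, mul_div_cancel_right₀ _ (pow_ne_zero _ hd)]

omit hpp [Finite F] in
theorem both {w : Valuation (RatFunc F) ℤᵐ⁰} {x : RatFunc F} (h0 : x ≠ 0)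
    (h1 : 1 < w x → ∃ k : ℤ, w x = exp (p * k)) (h2 : 1 < w x⁻¹ → ∃ k : ℤ, w x⁻¹ = exp (p * k)) :
    ∃ k : ℤ, w x = exp (p * k) := by
  rcases lt_trichotomy 1 (w x) with h | h | h
  · exact h1 h
  · exact ⟨0, by simp [← h]⟩
  · obtain ⟨k, hk⟩ := h2 (by rwa [map_inv₀, one_lt_inv₀ (by simpa [zero_lt_iff] using h0)])
    exact ⟨-k, by rw [mul_neg, exp_neg, ← hk, map_inv₀, inv_inv]⟩

omit hpp [Finite F] in
theorem vl_X_one {v : Pl F} (h : v ≠ idealX F) : vl v RatFunc.X = 1 := by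
  refine (v.valuation_eq_one_iff_notMem (r := X)).2 fun hX => h (HeightOneSpectrum.ext ?_)
  exact ((idealX F).isMaximal.eq_of_le v.isPrime.ne_top
    ((Ideal.span_singleton_le_iff_mem _).2 hX)).symm

theorem pow_t (n : ℕ) : ∀ τ : RatFunc F, τ ≠ 0 → vl (idealX F) τ⁻¹ ≤ exp (n : ℤ) →
    AS p (τ - RatFunc.X) → AS p (τ⁻¹ - RatFunc.X⁻¹) → ∃ s, τ = RatFunc.X ^ p ^ s := by
  induction n using Nat.strong_induction_on with
  | _ n ih =>
  intro τ h0 hn h1 h2
  have hp := hpp.three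
  have hX : (RatFunc.X : RatFunc F) ≠ 0 := RatFunc.X_ne_zero
  have ho : ∀ v : Pl F, v ≠ idealX F → ∃ k : ℤ, vl v τ = exp (p * k) := fun v hv => by
    have e := vl_X_one hv
    refine both h0 (fun h => ?_) fun h => ?_
    · have e1 := (vl v).map_sub_eq_of_lt_left (e.trans_lt h)
      exact (h1.val _ (by omega) (e1 ▸ h)).imp fun k hk => e1 ▸ hk.2
    · have e1 := (vl v).map_sub_eq_of_lt_left (x := τ⁻¹) (y := RatFunc.X⁻¹)
        (by rwa [map_inv₀, e, inv_one])
      exact (h2.val _ (by omega) (e1 ▸ h)).imp fun k hk => e1 ▸ hk.2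
  have e0 : vl (idealX F) RatFunc.X⁻¹ = exp 1 := by
    rw [map_inv₀, valuation_X_eq_neg_one, ← exp_neg, neg_neg]
  obtain ⟨e, he⟩ := ex_exp (vl (idealX F)) (inv_ne_zero h0)
  rcases lt_trichotomy e 1 with h | rfl | h
  · have e1 := (vl (idealX F)).map_sub_eq_of_lt_right (x := τ⁻¹) (y := RatFunc.X⁻¹)
      (by rwa [e0, he, exp_lt_exp])
    obtain ⟨k, hk, h3⟩ := h2.val (vl (idealX F)) (by omega)
      (by rw [e1, e0, ← exp_zero, exp_lt_exp]; norm_num)
    rw [e1, e0, exp_inj] at h3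
    nlinarith
  · obtain ⟨g, hg⟩ := is_pow (p := p) (div_ne_zero h0 hX) fun v => by
      rcases eq_or_ne v (idealX F) with rfl | hv
      · refine ⟨0, ?_⟩
        rw [← inv_inv τ, div_eq_mul_inv, map_mul, map_inv₀, he, e0, ← exp_neg, ← exp_add]
        simp
      · rw [map_div₀, vl_X_one hv, div_one]
        exact ho v hv
    obtain rfl : τ = RatFunc.X * g ^ p := by rw [← hg]; field_simp
    obtain ⟨r, h1⟩ := h1
    obtain ⟨⟨a, ha⟩, b, rfl⟩ := glob1 (p := p) (r := g - 1) (s := r) 0 (-1)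
      (by simp only [map_neg, map_one, map_zero, subq]; linear_combination h1)
    have h5 := deg_zero (p := p) (A := a ^ p) (b := b) (by simp)
      (IsFractionRing.injective F[X] (RatFunc F) (by
        simp only [map_mul, map_sub, map_pow, ha, subq, RatFunc.algebraMap_X]
        linear_combination h1))
    rw [pow_eq_zero_iff (neq (p := p) F)] at h5
    rw [h5, map_zero, eq_comm, sub_eq_zero] at ha
    exact ⟨0, by simp [ha]⟩
  · have e1 := (vl (idealX F)).map_sub_eq_of_lt_left (x := τ⁻¹) (y := RatFunc.X⁻¹)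
      (by rwa [e0, he, exp_lt_exp])
    obtain ⟨k, hk, h3⟩ := h2.val (vl (idealX F)) (by omega)
      (by rw [e1, he, ← exp_zero, exp_lt_exp]; omega)
    rw [e1] at h3
    obtain ⟨g, rfl⟩ := is_pow (p := p) h0 fun v => by
      rcases eq_or_ne v (idealX F) with rfl | hv
      · exact ⟨-k, by rw [mul_neg, exp_neg, ← h3, map_inv₀, inv_inv]⟩
      · exact ho v hv
    have g0 : g ≠ 0 := by rintro rfl; simp [neq (p := p) F] at h0
    obtain ⟨l, hl⟩ := ex_exp (vl (idealX F)) (inv_ne_zero g0)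
    rw [← inv_pow] at h2 h3 hn
    rw [h3, exp_le_exp] at hn
    rw [val_pow _ hl, exp_inj] at h3
    obtain rfl : l = k := mul_left_cancel₀ (by omega) h3
    obtain ⟨s, rfl⟩ := ih l.toNat (by have : 3 * l ≤ p * l := by nlinarith
                                      omega) g g0
      (by rw [hl, exp_le_exp]; omega) h1.desc h2.desc
    exact ⟨s + 1, by rw [pow_succ, pow_mul]⟩

theorem pow_u {j : ℕ} (hj : p = j + 1) {u : RatFunc F} (hu : ∀ v : Pl F, vl v u ≤ exp 1)
    (hu' : ∀ v : Pl F, vl v u⁻¹ ≤ exp 1) (s : ℕ) : ∀ v : RatFunc F, v ≠ 0 → AS p (v - u) →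
    AS p (RatFunc.X ^ p ^ s * v - RatFunc.X * u) → AS p (v ^ j - u ^ j) →
    AS p (RatFunc.X ^ p ^ s * v ^ j - RatFunc.X * u ^ j) → AS p (v⁻¹ ^ j - u⁻¹ ^ j) →
    AS p (RatFunc.X ^ p ^ s * v⁻¹ ^ j - RatFunc.X * u⁻¹ ^ j) → v = u ^ p ^ s := by
  induction s with
  | zero =>
    intro v _ h1 h2 _ _ _ _
    simpa [sub_eq_zero] using as_zero h1 (by simpa [mul_sub] using h2)
  | succ s ih =>
    intro v h0 h1 h2 h3 h4 h5 h6
    rw [pow_succ, pow_mul] at h2 h4 h6 ⊢
    obtain ⟨g, rfl⟩ := is_pow (p := p) h0 fun w => both h0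
      (loc2 _ (vl_X w) (simple w) hj hpp.three (pow_le _ (vl_X w) _) (hu w) h3 h4)
      (loc2 _ (vl_X w) (simple w) hj hpp.three (pow_le _ (vl_X w) _) (hu' w) h5 h6)
    rw [← inv_pow] at h5 h6
    rw [pow_right_comm] at h3 h5
    rw [pow_right_comm _ p j] at h4 h6
    rw [← mul_pow] at h2 h4 h6
    rw [ih g (by rintro rfl; simp [neq (p := p) F] at h0) h1.desc h2.desc h3.desc h4.desc h5.desc
      h6.desc]

/-- `τ` and `y` are obtained from the variable and from `x` by the same power of Frobenius. -/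
def Fr (p : ℕ) (x y τ : RatFunc F) : Prop := ∃ s, τ = RatFunc.X ^ p ^ s ∧ y = x ^ p ^ s

omit [Finite F] in
theorem den_ne (x : RatFunc F) : x ^ p - RatFunc.X ≠ 0 := fun h => by
  simpa [h] using simple (p := p) (idealX F) x

theorem fr_iff {j : ℕ} (hj : p = j + 1) (x y τ : RatFunc F) : Fr p x y τ ↔
    ∃ τ' t' u v u' v' : RatFunc F, τ * τ' = 1 ∧ RatFunc.X * t' = 1 ∧ u * u' = 1 ∧ v * v' = 1 ∧
    u * (x ^ p - RatFunc.X - 1) = x ^ p - RatFunc.X ∧ v * (y ^ p - τ - 1) = y ^ p - τ ∧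
    AS p (τ - RatFunc.X) ∧ AS p (τ' - t') ∧ AS p (v - u) ∧ AS p (τ * v - RatFunc.X * u) ∧
    AS p (v ^ j - u ^ j) ∧ AS p (τ * v ^ j - RatFunc.X * u ^ j) ∧ AS p (v' ^ j - u' ^ j) ∧
    AS p (τ * v' ^ j - RatFunc.X * u' ^ j) := by
  have hX : (RatFunc.X : RatFunc F) ≠ 0 := RatFunc.X_ne_zero
  have hn : x ^ p - RatFunc.X - 1 = (x - 1) ^ p - RatFunc.X := by rw [subq]; ring
  have d1 := den_ne (p := p) x
  have d2 := hn ▸ den_ne (p := p) (x - 1)
  have key : ∀ (u : RatFunc F) s, u * (x ^ p - RatFunc.X - 1) = x ^ p - RatFunc.X →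
      u ^ p ^ s * ((x ^ p ^ s) ^ p - RatFunc.X ^ p ^ s - 1) = (x ^ p ^ s) ^ p - RatFunc.X ^ p ^ s :=
    fun u s h => by rw [pow_right_comm, ← subqs, ← one_pow (p ^ s), ← subqs, ← mul_pow, h]
  constructor
  · rintro ⟨s, rfl, rfl⟩
    have h1 := div_mul_cancel₀ (x ^ p - RatFunc.X) d2
    have h2 := div_ne_zero d1 d2
    generalize (x ^ p - RatFunc.X) / (x ^ p - RatFunc.X - 1) = u at h1 h2
    refine ⟨RatFunc.X⁻¹ ^ p ^ s, RatFunc.X⁻¹, u, u ^ p ^ s, u⁻¹, u⁻¹ ^ p ^ s, by simp [hX],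
      by simp [hX], by simp [h2], by simp [h2], h1, key u s h1, .iter _ s, .iter _ s, .iter _ s,
      mul_pow _ u _ ▸ .iter _ s, pow_right_comm u _ _ ▸ .iter _ s, ?_,
      pow_right_comm u⁻¹ _ _ ▸ .iter _ s, ?_⟩ <;>
    · rw [pow_right_comm _ _ j, ← mul_pow]
      exact .iter _ s
  · rintro ⟨τ', t', u, v, u', v', e1, e2, e3, e4, e5, e6, h1, h2, h3, h4, h5, h6, h7, h8⟩
    obtain rfl := eq_inv_of_mul_eq_one_right e1
    obtain rfl := eq_inv_of_mul_eq_one_right e2
    obtain rfl := eq_inv_of_mul_eq_one_right e3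
    obtain rfl := eq_inv_of_mul_eq_one_right e4
    have τ0 := left_ne_zero_of_mul_eq_one e1
    obtain ⟨k, hk⟩ := ex_exp (vl (idealX F)) (inv_ne_zero τ0)
    obtain ⟨s, rfl⟩ := pow_t k.toNat τ τ0 (by rw [hk, exp_le_exp]; omega) h1 h2
    have hu := eq_div_of_mul_eq d2 e5
    obtain rfl := pow_u hj (u := u)
      (fun w => by
        have := pole_le _ (simple (p := p) w) (x - 1) 1 (by simp)
        rwa [← hn, one_add_div d2, sub_add_cancel, ← hu] at this)
      (fun w => by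
        have := pole_le _ (simple (p := p) w) x (-1) (by simp)
        rwa [one_add_div d1, ← sub_eq_add_neg, ← inv_div, ← hu] at this)
      s v (left_ne_zero_of_mul_eq_one e4) h3 h4 h5 h6 h7 h8
    refine ⟨s, rfl, powq_inj p ?_⟩
    have e7 := key u s e5
    beta_reduce
    generalize (x ^ p ^ s) ^ p = A at *
    generalize y ^ p = B at *
    linear_combination (A - RatFunc.X ^ p ^ s - 1) * e6 - (B - RatFunc.X ^ p ^ s - 1) * e7

end Pool.Agent.Lib.MP_c72338_lc.Ph
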