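import Pool.Agent.Lib.MP_c72338_lc.Ph2

/-! Positive order at zero in a rational function field over a finite field, after Pheidas. -/

namespace Pool.Agent.Lib.MP_c72338_lc.Ph

open WithZero Polynomial IsDedekindDomain Finset

variable {F : Type} [Field F]

def DD (q : ℕ) (z : RatFunc F) : Prop :=
  ∃ (a : RatFunc F) (b : ℕ → RatFunc F), z = a - a ^ q + ∑ i ∈ Ico 1 q, RatFunc.X ^ i * b i ^ q

theorem term_val (q i : ℕ) {b : RatFunc F} (h : vl (idealX F) (RatFunc.X ^ i * b ^ q) ≠ 0) :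
    ∃ k : ℤ, vl (idealX F) (RatFunc.X ^ i * b ^ q) = exp (q * k - i) := by
  rcases Nat.eq_zero_or_pos q with rfl | hq
  · exact ⟨0, by rw [map_mul, val_pow _ (valuation_X_eq_neg_one F)]; simp⟩
  obtain ⟨k, hk⟩ := ex_exp (vl (idealX F)) (x := b) (by rintro rfl; simp [hq.ne'] at h)
  exact ⟨k, by rw [map_mul, val_pow _ (valuation_X_eq_neg_one F), val_pow _ hk, ← exp_add]; ring_nf⟩

theorem sum_val {q : ℕ} {s : Finset ℕ} (hs : ∀ i ∈ s, i < q) (b : ℕ → RatFunc F) (h0 : s.Nonempty) :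
    ∃ j ∈ s, vl (idealX F) (∑ i ∈ s, RatFunc.X ^ i * b i ^ q) =
      vl (idealX F) (RatFunc.X ^ j * b j ^ q) ∧
      ∀ i ∈ s, vl (idealX F) (RatFunc.X ^ i * b i ^ q) ≤ vl (idealX F) (RatFunc.X ^ j * b j ^ q) := by
  obtain ⟨j, hj, h⟩ := exists_max_image s (fun i => vl (idealX F) (RatFunc.X ^ i * b i ^ q)) h0
  refine ⟨j, hj, ?_, h⟩
  rcases eq_or_ne (vl (idealX F) (RatFunc.X ^ j * b j ^ q)) 0 with h1 | h1
  · rw [h1] at h ⊢
    exact le_zero_iff.1 (Valuation.map_sum_le _ h)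
  refine Valuation.map_sum_eq_of_lt _ hj fun i hi => ?_
  rw [mem_sdiff, mem_singleton] at hi
  refine (h i hi.1).lt_of_ne fun e => hi.2 ?_
  obtain ⟨k, hk⟩ := term_val q j h1
  obtain ⟨l, hl⟩ := term_val q i (e ▸ h1)
  rw [hk, hl, exp_inj] at e
  have := hs i hi.1
  have := hs j hj
  rcases lt_trichotomy k l with h | h | h
  · nlinarith
  · subst h; omega
  · nlinarith

variable {p : ℕ} [hpp : Fq F p] {n : ℕ} (hn : 0 < n) (hq : ∀ c : F, c ^ p ^ n = c)

theorem DD.add {x y : RatFunc F} (hx : DD (p ^ n) x) (hy : DD (p ^ n) y) : DD (p ^ n) (x + y) := by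
  obtain ⟨a, b, rfl⟩ := hx
  obtain ⟨c, d, rfl⟩ := hy
  refine ⟨a + c, fun i => b i + d i, ?_⟩
  simp only [addqs, mul_add, sum_add_distrib]
  ring

include hn hq

theorem not_dd {W : RatFunc F} (h1 : vl (idealX F) (W - 1) < 1) : ¬ DD (p ^ n) W := by
  rintro ⟨a, b, h⟩
  have hq1 : 1 < p ^ n := Nat.one_lt_pow hn.ne' (show 1 < p by have := hpp.three; omega)
  have hW : vl (idealX F) W ≤ 1 := by
    rw [← sub_add_cancel W 1]; exact Valuation.map_add_le _ h1.le (by simp)
  have ha : vl (idealX F) a ≤ 1 := by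
    by_contra ha
    obtain ⟨k, hk, ha'⟩ := ex_pos _ (not_le.1 ha)
    obtain ⟨j, -, e, h2⟩ := sum_val (q := p ^ n) (s := insert 0 (Ico 1 (p ^ n)))
      (fun i hi => by simp at hi; omega) (fun i => if i = 0 then -a else b i) (by simp)
    have h3 := (h2 0 (by simp)).trans e.ge
    rw [sum_insert (by simp), sum_congr rfl (g := fun i => RatFunc.X ^ i * b i ^ p ^ n)
      fun i hi => by rw [if_neg (by simp at hi; omega)]] at h3
    simp only [pow_zero, one_mul, if_true, negqs,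
      Valuation.map_neg] at h3
    rw [show -a ^ p ^ n + ∑ i ∈ Ico 1 (p ^ n), RatFunc.X ^ i * b i ^ p ^ n = W - a by rw [h]; ring,
      val_pow _ ha'] at h3
    have h4 := h3.trans (Valuation.map_sub_le _ (hW.trans (not_le.1 ha).le) le_rfl)
    rw [ha', exp_le_exp] at h4
    have : (1 : ℤ) < (p ^ n : ℕ) := by exact_mod_cast hq1
    nlinarith
  obtain ⟨r, hr⟩ := (idealX F).exists_valuation_sub_lt_of_integer ha 1
  have h2 : vl (idealX F) (a - am (C (r.coeff 0))) < 1 := by
    rw [show a - am (C (r.coeff 0)) = am (r - C (r.coeff 0)) - (am r - a) by rw [map_sub]; ring]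
    refine Valuation.map_sub_lt _ (((idealX F).valuation_lt_one_iff_mem _).2 ?_) hr
    rw [idealX_span, Ideal.mem_span_singleton, X_dvd_iff]
    simp
  have h3 : vl (idealX F) (a - a ^ p ^ n) < 1 := by
    rw [show a - a ^ p ^ n = (a - am (C (r.coeff 0))) - (a - am (C (r.coeff 0))) ^ p ^ n by
      rw [subqs, ← map_pow, ← C_pow, hq]; ring]
    refine Valuation.map_sub_lt _ h2 ?_
    rw [map_pow]
    exact pow_lt_one' h2 (by omega)
  have h4 := (vl (idealX F)).map_one_add_of_lt (Valuation.map_sub_lt _ h1 h3)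
  rw [show 1 + (W - 1 - (a - a ^ p ^ n)) = ∑ i ∈ Ico 1 (p ^ n), RatFunc.X ^ i * b i ^ p ^ n by
    rw [h]; ring] at h4
  obtain ⟨j, hj, e, -⟩ := sum_val (q := p ^ n) (s := Ico 1 (p ^ n)) (fun i hi => (mem_Ico.1 hi).2) b
    ⟨1, by simpa using hq1⟩
  rw [e] at h4
  obtain ⟨k, hk⟩ := term_val (p ^ n) j (h4.trans_ne one_ne_zero)
  rw [hk, exp_eq_one] at h4
  rw [mem_Ico] at hj
  have : (j : ℤ) < (p ^ n : ℕ) := by exact_mod_cast hj.2
  rcases le_or_gt k 0 with h | h <;> nlinarith [hj.1]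

theorem dd_mono (c : F) (m : ℕ) : 0 < m → DD (p ^ n) (am (C c * X ^ m)) := by
  induction m using Nat.strong_induction_on with
  | _ m ih =>
  intro hm
  have hq1 : 1 < p ^ n := Nat.one_lt_pow hn.ne' (show 1 < p by have := hpp.three; omega)
  have e : am (C c * X ^ m) = RatFunc.X ^ (m % p ^ n) * am (C c * X ^ (m / p ^ n)) ^ p ^ n := by
    rw [← map_pow, mul_pow, ← C_pow, hq, ← RatFunc.algebraMap_X, ← map_pow, ← map_mul, ← pow_mul]
    congr 1
    nth_rewrite 1 [← Nat.mod_add_div' m (p ^ n)]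
    ring
  rcases Nat.eq_zero_or_pos (m % p ^ n) with h | h
  · obtain ⟨a, b, h1⟩ := ih (m / p ^ n) (Nat.div_lt_self hm hq1)
      (Nat.div_pos (Nat.le_of_dvd hm (Nat.dvd_of_mod_eq_zero h)) (by omega))
    refine ⟨a - am (C c * X ^ (m / p ^ n)), b, ?_⟩
    rw [e, h, subqs]
    linear_combination h1
  · refine ⟨0, fun i => if i = m % p ^ n then am (C c * X ^ (m / p ^ n)) else 0, ?_⟩
    beta_reduce
    rw [sum_eq_single_of_mem (m % p ^ n) (mem_Ico.2 ⟨h, Nat.mod_lt _ (by omega)⟩)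
      fun i _ hi => by rw [if_neg hi, zero_pow (by omega), mul_zero], if_pos rfl, ← e,
      zero_pow (by omega)]
    ring

theorem dd_poly (f : F[X]) : DD (p ^ n) (am (X * f)) := by
  induction f using Polynomial.induction_on' with
  | add f g hf hg => rw [mul_add, map_add]; exact hf.add hg
  | monomial m c =>
    rw [← C_mul_X_pow_eq_monomial, show X * (C c * X ^ m) = C c * X ^ (m + 1) by ring]
    exact dd_mono hn hq c _ m.succ_pos

theorem pos_iff [Finite F] (x : RatFunc F) : vl (idealX F) x < 1 ↔ ∃ τ σ u : RatFunc F,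
    Fr p RatFunc.X τ τ ∧ RatFunc.X * σ = τ ^ p ∧ u * (x ^ p - RatFunc.X) = x ^ p ∧
      DD (p ^ n) (u * (1 - σ)) := by
  have hX : (RatFunc.X : RatFunc F) ≠ 0 := RatFunc.X_ne_zero
  have hσ : ∀ s, vl (idealX F) (RatFunc.X ^ (p ^ (s + 1) - 1)) < 1 := fun s => by
    have : 1 < p ^ (s + 1) := Nat.one_lt_pow s.succ_ne_zero (show 1 < p by have := hpp.three; omega)
    rw [val_pow _ (valuation_X_eq_neg_one F), ← exp_zero, exp_lt_exp]
    omega
  have eσ : ∀ s, RatFunc.X * RatFunc.X ^ (p ^ (s + 1) - 1) = ((RatFunc.X : RatFunc F) ^ p ^ s) ^ p :=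
    fun s => by rw [← pow_succ', Nat.sub_add_cancel (Nat.one_le_pow _ _ (Nat.pos_of_ne_zero (neq F))), pow_succ, pow_mul]
  constructor
  · intro h
    have hu := div_mul_cancel₀ (x ^ p) (den_ne (p := p) x)
    have hu1 : ∀ v : Pl F, vl v (x ^ p / (x ^ p - RatFunc.X)) ≤ exp 1 := fun v => by
      have := pole_le _ (simple (p := p) v) x _ (vl_X v)
      rwa [one_add_div (den_ne x), sub_add_cancel] at this
    have hu2 : vl (idealX F) (x ^ p / (x ^ p - RatFunc.X)) < 1 := by
      rw [map_div₀, div_lt_one₀ (by simpa [zero_lt_iff] using den_ne (p := p) x)]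
      refine lt_of_lt_of_le ?_ (simple (p := p) _ x)
      rw [map_pow]
      refine (pow_le_pow_left' (lt_one_iff.1 h) p).trans_lt ?_
      rw [← exp_nsmul, exp_lt_exp]
      simpa using (show 1 < p by have := hpp.three; omega)
    generalize x ^ p / (x ^ p - RatFunc.X) = u at hu hu1 hu2
    have := u.monic_denom.finite_adjoinRoot
    have : Finite (AdjoinRoot u.denom) := Module.finite_of_finite F
    obtain ⟨s, m, hd⟩ : ∃ s m, u.denom ∣ ((X ^ p ^ s) ^ p - X) ^ p ^ m := by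
      obtain ⟨i, j, hij, e⟩ := Finite.exists_ne_map_eq_of_infinite
        fun i : ℕ => AdjoinRoot.mk u.denom (X ^ p ^ i)
      wlog hl : j < i generalizing i j
      · exact this j i hij.symm e.symm (by omega)
      obtain ⟨s, rfl⟩ := Nat.exists_eq_add_of_lt hl
      refine ⟨s, j, ?_⟩
      rw [subqs, ← pow_mul, ← pow_mul, ← pow_succ', ← pow_add,
        show s + (j + 1) = j + s + 1 by ring]
      exact AdjoinRoot.mk_eq_mk.1 e
    obtain ⟨f, hf⟩ := HeightOneSpectrum.mem_integers_of_valuation_le_one _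
      (u * (1 - RatFunc.X ^ (p ^ (s + 1) - 1))) fun v : Pl F => by
        have h1 : vl v (1 - RatFunc.X ^ (p ^ (s + 1) - 1)) ≤ 1 :=
          Valuation.map_sub_le _ (by simp) (pow_le _ (vl_X v) _)
        by_cases h2 : vl v u ≤ 1
        · exact mul_le _ h2 h1
        have h3 : u.denom ∈ v.asIdeal := by
          by_contra h3
          rw [← u.num_div_denom, map_div₀, v.valuation_eq_one_iff_notMem.2 h3, div_one] at h2
          exact h2 (vl_am v _)
        have h4 := lt_one_iff.1 ((v.valuation_lt_one_iff_mem (K := RatFunc F) _).2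
          (v.isPrime.mem_of_pow_mem _ (Ideal.mem_of_dvd _ hd h3)))
        have h5 : am ((X ^ p ^ s) ^ p - X : F[X]) = -RatFunc.X * (1 - RatFunc.X ^ (p ^ (s + 1) - 1)) := by
          simp only [map_sub, map_pow, RatFunc.algebraMap_X, ← eσ]; ring
        replace h4 := (congrArg (vl v) h5).ge.trans h4
        rw [map_mul, Valuation.map_neg, vl_X_one (by rintro rfl; exact h2 hu2.le), one_mul] at h4
        exact (map_mul _ _ _).trans_le ((mul_le_mul' (hu1 v) h4).trans (by rw [← exp_add]; simp))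
    obtain ⟨g, rfl⟩ : X ∣ f := by
      rw [← Ideal.mem_span_singleton, ← idealX_span,
        ← (idealX F).valuation_lt_one_iff_mem (K := RatFunc F)]
      refine (congrArg _ hf).trans_lt ?_
      rw [map_mul, Valuation.map_one_sub_of_lt _ (hσ s), mul_one]
      exact hu2
    exact ⟨_, _, u, ⟨s, rfl, rfl⟩, eσ s, hu, hf ▸ dd_poly hn hq g⟩
  · rintro ⟨_, σ, u, ⟨s, rfl, -⟩, h1, h2, h3⟩
    obtain rfl := mul_left_cancel₀ hX (h1.trans (eσ s).symm)
    by_contra h
    refine not_dd hn hq ?_ h3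
    have h4 : vl (idealX F) (u - 1) < 1 := by
      have hx : vl (idealX F) RatFunc.X < 1 := by
        rw [valuation_X_eq_neg_one, ← exp_zero, exp_lt_exp]; norm_num
      have hx' : 1 ≤ vl (idealX F) (x ^ p) := by
        rw [map_pow]; exact one_le_pow_of_one_le' (not_lt.1 h) p
      have := congrArg (vl (idealX F)) (show (u - 1) * (x ^ p - RatFunc.X) = RatFunc.X by
        linear_combination h2)
      rw [map_mul, Valuation.map_sub_eq_of_lt_left _ (hx.trans_le hx')] at this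
      exact (le_mul_of_one_le_right' hx').trans_lt (this.trans_lt hx)
    rw [show u * (1 - RatFunc.X ^ (p ^ (s + 1) - 1)) - 1 = u - 1 -
      (1 + (u - 1)) * RatFunc.X ^ (p ^ (s + 1) - 1) by ring]
    refine Valuation.map_sub_lt _ h4 ?_
    rw [map_mul, Valuation.map_one_add_of_lt _ h4, one_mul]
    exact hσ s

end Pool.Agent.Lib.MP_c72338_lc.Ph
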