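import Pool.Agent.Lib.MP_c72338_lc.Ph3
import Pool.Agent.Shared.MRDP

/-! Diophantine sets over a rational function field over a finite field, and the model of the natural numbers given by the order at zero (Pheidas). -/

namespace Pool.Agent.Lib.MP_c72338_lc.Ph

open WithZero Polynomial Finset

variable {F : Type} [Field F] {α γ V W : Type}

/-- Polynomial functions with coefficients in the ring generated by the variable. -/
inductive IsP {α : Type} : ((α → RatFunc F) → RatFunc F) → Prop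
  | var (i : α) : IsP fun x => x i
  | int (c : ℤ) : IsP fun _ => (c : RatFunc F)
  | tt : IsP fun _ => RatFunc.X
  | add {f g} : IsP f → IsP g → IsP fun x => f x + g x
  | mul {f g} : IsP f → IsP g → IsP fun x => f x * g x

namespace IsP

variable {f g : (α → RatFunc F) → RatFunc F}

theorem of_eq (h : IsP f) (e : ∀ x, f x = g x) : IsP g := funext e ▸ h
theorem one : IsP fun _ : α → RatFunc F => (1 : RatFunc F) := (int 1).of_eq fun _ => by simp
theorem sub (h : IsP f) (k : IsP g) : IsP fun x => f x - g x :=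
  (h.add ((int (-1)).mul k)).of_eq fun _ => by simp [sub_eq_add_neg]
theorem pow (h : IsP f) (n : ℕ) : IsP fun x => f x ^ n := by
  induction n with
  | zero => exact one.of_eq fun _ => by simp
  | succ n ih => exact (ih.mul h).of_eq fun _ => by rw [pow_succ]
theorem sum (s : Finset ℕ) {f : ℕ → (α → RatFunc F) → RatFunc F} (h : ∀ i, IsP (f i)) :
    IsP fun x => ∑ i ∈ s, f i x := by
  induction s using Finset.induction_on with
  | empty => exact (int 0).of_eq fun _ => by simp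
  | insert a s ha ih => exact ((h a).add ih).of_eq fun _ => by rw [sum_insert ha]
theorem comp (h : IsP f) (g : α → (γ → RatFunc F) → RatFunc F) (hg : ∀ i, IsP (g i)) :
    IsP fun x => f fun i => g i x := by
  induction h with
  | var i => exact hg i
  | int c => exact int c
  | tt => exact tt
  | add _ _ a b => exact a.add b
  | mul _ _ a b => exact a.mul b
theorem ren (h : IsP f) (e : α → γ) : IsP fun x => f fun i => x (e i) := h.comp _ fun _ => var _

end IsP

def Dio (S : (α → RatFunc F) → Prop) : Prop :=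
  ∃ (β : Type) (_ : Encodable β) (f : (α ⊕ β → RatFunc F) → RatFunc F), IsP f ∧
    ∀ x, S x ↔ ∃ y, f (Sum.elim x y) = 0

section

variable {p : ℕ} [hpp : Fq F p]

namespace Dio

variable {S T : (α → RatFunc F) → Prop} {f g k : (α → RatFunc F) → RatFunc F}

theorem of_iff (h : Dio S) (e : ∀ x, T x ↔ S x) : Dio T := (funext fun x => propext (e x)) ▸ h

theorem eq (h : IsP f) (k : IsP g) : Dio fun x => f x = g x :=
  ⟨Unit, inferInstance, _, (h.sub k).ren .inl, fun x => by simp [sub_eq_zero]⟩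

theorem comp (h : Dio S) (g : α → (γ → RatFunc F) → RatFunc F) (hg : ∀ i, IsP (g i)) :
    Dio fun x => S fun i => g i x := by
  obtain ⟨β, _, f, hf, e⟩ := h
  refine ⟨β, inferInstance, _, hf.comp (Sum.elim (fun i x => g i fun j => x (.inl j))
    fun b x => x (.inr b)) (Sum.rec (fun i => (hg i).ren _) fun _ => .var _), fun x => ?_⟩
  refine (e _).trans (exists_congr fun y => Eq.congr_left (congrArg f ?_))
  funext o; cases o <;> rfl

theorem exB {β : Type} [Encodable β] {S : (β → RatFunc F) → (α → RatFunc F) → Prop}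
    (h : Dio fun x : α ⊕ β → RatFunc F => S (fun b => x (.inr b)) fun a => x (.inl a)) :
    Dio fun x => ∃ y, S y x := by
  obtain ⟨δ, _, f, hf, e⟩ := h
  refine ⟨β ⊕ δ, inferInstance, _, hf.ren (Equiv.sumAssoc α β δ), fun x => ⟨fun ⟨y, h⟩ => ?_,
    fun ⟨y, h⟩ => ⟨fun b => y (.inl b), (e (Sum.elim x fun b => y (.inl b))).2
      ⟨fun d => y (.inr d), (congrArg f ?_).trans h⟩⟩⟩⟩
  · obtain ⟨z, hz⟩ := (e (Sum.elim x y)).1 h
    refine ⟨Sum.elim y z, (congrArg f ?_).trans hz⟩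
    funext o; rcases o with (_ | _) | _ <;> rfl
  · funext o; rcases o with (_ | _) | _ <;> rfl

theorem ex {S : RatFunc F → (α → RatFunc F) → Prop}
    (h : Dio fun x : Option α → RatFunc F => S (x none) fun a => x (some a)) :
    Dio fun x => ∃ y, S y x :=
  (exB (β := Unit) (S := fun y x => S (y ()) x) (h.comp
    (fun o x => x (o.elim (Sum.inr ()) Sum.inl)) fun _ => .var _)).of_iff
    fun _ => ⟨fun ⟨y, h⟩ => ⟨fun _ => y, h⟩, fun ⟨_, h⟩ => ⟨_, h⟩⟩

variable (p) in
include hpp in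
theorem and (h : Dio S) (k : Dio T) : Dio fun x => S x ∧ T x := by
  obtain ⟨β, _, f, hf, e⟩ := h
  obtain ⟨δ, _, g, hg, e'⟩ := k
  have a1 : ∀ (x : α → RatFunc F) (y : β ⊕ δ → RatFunc F), (fun i => Sum.elim x y
    (Sum.map id .inl i)) = Sum.elim x fun b => y (.inl b) := fun x y => by
    funext o; cases o <;> rfl
  have a2 : ∀ (x : α → RatFunc F) (y : β ⊕ δ → RatFunc F), (fun i => Sum.elim x y
    (Sum.map id .inr i)) = Sum.elim x fun b => y (.inr b) := fun x y => by
    funext o; cases o <;> rfl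
  refine ⟨β ⊕ δ, inferInstance, _, ((hf.ren (Sum.map id .inl)).pow p).sub
    (IsP.tt.mul ((hg.ren (Sum.map id .inr)).pow p)), fun x => ?_⟩
  simp only [a1, a2, e, e']
  refine ⟨fun ⟨⟨y, h⟩, z, k⟩ => ⟨Sum.elim y z, by simp [h, k, neq (p := p) F]⟩, fun ⟨y, h⟩ => ?_⟩
  have h1 : g (Sum.elim x fun b => y (.inr b)) = 0 := by
    by_contra h1
    refine den_ne (p := p) (f (Sum.elim x fun b => y (.inl b)) / g (Sum.elim x fun b => y (.inr b))) ?_
    rw [div_pow, sub_eq_zero.1 h, mul_div_cancel_right₀ _ (pow_ne_zero _ h1), sub_self]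
  exact ⟨⟨_, by simpa [h1, neq (p := p) F] using h⟩, _, h1⟩

variable (p) in
include hpp in
theorem all {ι : Type} [Fintype ι] {S : ι → (α → RatFunc F) → Prop} (h : ∀ i, Dio (S i)) :
    Dio fun x => ∀ i, S i x := by
  classical
  have : ∀ s : Finset ι, Dio fun x => ∀ i ∈ s, S i x := fun s => by
    induction s using Finset.induction_on with
    | empty => exact (eq .one .one).of_iff fun _ => by simp
    | insert a s _ ih => exact (and p (h a) ih).of_iff fun _ => by simp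
  exact (this univ).of_iff fun _ => by simp

omit hpp in
theorem as (h : IsP f) : Dio fun x => AS p (f x) :=
  ex (eq (h.ren _) (((IsP.var _).pow _).sub (.var _)))

omit hpp in
theorem dd (q : ℕ) (h : IsP f) : Dio fun x => DD q (f x) :=
  ex (exB (eq (h.ren _) ((((IsP.var _).sub ((IsP.var _).pow _))).add
    (.sum _ fun _ => (IsP.tt.pow _).mul ((IsP.var _).pow _)))))

variable [Finite F] (hp : 3 ≤ p)
include hp

theorem fr (hf : IsP f) (hg : IsP g) (hk : IsP k) : Dio fun x => Fr p (f x) (g x) (k x) := by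
  simp only [fr_iff (show p = p - 1 + 1 by omega)]
  repeat' with_reducible first
    | apply ex | apply and p | apply eq | apply as | apply IsP.add | apply IsP.sub
    | apply IsP.mul | apply IsP.pow | exact .var _ | exact .tt | exact .one | exact hf.ren _
    | exact hg.ren _ | exact hk.ren _

theorem pos (hf : IsP f) : Dio fun x => vl (idealX F) (f x) < 1 := by
  have := Fintype.ofFinite F
  obtain ⟨l, e, hl, _, he⟩ := hpp.ex
  obtain ⟨n, -, hn⟩ := FiniteField.card F l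
  simp only [pos_iff (p := p) n.pos fun c : F => by
    rw [he, pow_right_comm, ← hn, FiniteField.pow_card_pow]]
  repeat' with_reducible first
    | apply ex | apply and p | apply eq | apply dd | apply fr hp | apply IsP.add | apply IsP.sub
    | apply IsP.mul | apply IsP.pow | exact .var _ | exact .tt | exact .one | exact hf.ren _

end Dio

end

/-- `x` has order `n` at zero. -/
def Md (x : RatFunc F) (n : ℕ) : Prop := vl (idealX F) x = exp (-(n : ℤ))

def Le (x y : RatFunc F) : Prop := ∃ z, z * x = RatFunc.X * y ∧ vl (idealX F) z < 1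

def Nt (y : RatFunc F) : Prop := ∃ z, y * z = 1 ∧ vl (idealX F) (RatFunc.X * y) < 1

theorem Md.ne {x : RatFunc F} {n : ℕ} (h : Md x n) : x ≠ 0 := by
  rintro rfl
  exact exp_ne_zero (h.symm.trans (map_zero _))

theorem Md.pow {x : RatFunc F} {n : ℕ} (h : Md x n) (k : ℕ) : Md (x ^ k) (k * n) :=
  (val_pow _ h k).trans (by simp)

theorem md_X (n : ℕ) : Md ((RatFunc.X : RatFunc F) ^ n) n := by
  simpa using Md.pow (n := 1) (valuation_X_eq_neg_one F) n

theorem le_iff {x y : RatFunc F} {n m : ℕ} (hx : Md x n) (hy : Md y m) : Le x y ↔ n ≤ m := by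
  have : vl (idealX F) (RatFunc.X * y / x) < 1 ↔ n ≤ m := by
    rw [map_div₀, map_mul, hx, hy, valuation_X_eq_neg_one, ← exp_add, ← exp_sub, ← exp_zero,
      exp_lt_exp]
    omega
  exact ⟨fun ⟨z, h, k⟩ => this.1 (eq_div_of_mul_eq hx.ne h ▸ k),
    fun h => ⟨_, div_mul_cancel₀ _ hx.ne, this.2 h⟩⟩

theorem nt_iff {y : RatFunc F} : Nt y ↔ ∃ n, Md y n := by
  constructor
  · rintro ⟨z, h, k⟩
    obtain ⟨e, he⟩ := ex_exp (vl (idealX F)) (left_ne_zero_of_mul_eq_one h)
    rw [map_mul, he, valuation_X_eq_neg_one, ← exp_add, ← exp_zero, exp_lt_exp] at k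
    exact ⟨(-e).toNat, he.trans (congrArg _ (by omega))⟩
  · rintro ⟨n, h⟩
    refine ⟨_, mul_inv_cancel₀ h.ne, ?_⟩
    rw [map_mul, h, valuation_X_eq_neg_one, ← exp_add, ← exp_zero, exp_lt_exp]
    omega

variable (F) in
/-- Relations between natural numbers that are Diophantine in the model. -/
def DN (R : (V → ℕ) → Prop) : Prop := ∃ S : (V → RatFunc F) → Prop, Dio S ∧
  ∀ x n, (∀ i, Md (x i) (n i)) → (S x ↔ R n)

variable (F) in
/-- Additive terms. -/
def TA (f : (V → ℕ) → ℕ) : Prop := ∃ g : (V → RatFunc F) → RatFunc F, IsP g ∧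
  ∀ x n, (∀ i, Md (x i) (n i)) → Md (g x) (f n)

namespace TA

variable {f g : (V → ℕ) → ℕ}

theorem var (i : V) : TA F fun ρ => ρ i := ⟨_, .var i, fun _ _ h => h i⟩
theorem const (c : ℕ) : TA F fun _ : V → ℕ => c := ⟨_, IsP.tt.pow c, fun _ _ _ => md_X c⟩
theorem add (h : TA F f) (k : TA F g) : TA F fun ρ => f ρ + g ρ := by
  obtain ⟨a, ha, h⟩ := h
  obtain ⟨b, hb, k⟩ := k
  refine ⟨_, ha.mul hb, fun x n e => (map_mul _ _ _).trans ?_⟩
  rw [h x n e, k x n e, ← exp_add]
  simp only [Nat.cast_add, neg_add]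
theorem ren (h : TA F f) (e : V → W) : TA F fun ρ => f fun i => ρ (e i) := by
  obtain ⟨a, ha, h⟩ := h
  exact ⟨_, ha.ren e, fun x n k => h _ _ fun i => k _⟩

end TA

def MP (p a n m : ℕ) : Prop := ∃ s, a = p ^ s ∧ m = a * n

theorem mul_iff {p : ℕ} (hp : 2 ≤ p) (k n m : ℕ) : k * n = m ↔ ∃ a R N D d C c b B : ℕ,
    MP p a (k + D) (k + D + R) ∧ MP p (R + 1) n (n + N) ∧ MP p a d (d + D) ∧
    MP p a (m + C) (m + C + N) ∧ MP p a c (c + C) ∧ MP p b n B ∧ k ≤ b ∧ B + 2 ≤ a ∧ m + 2 ≤ a := by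
  constructor
  · rintro rfl
    have h1 : ∀ e k : ℕ, ∃ d, (e + 1) ^ k = e * (k + e * d) + 1 := fun e k => by
      induction k with
      | zero => exact ⟨0, by simp⟩
      | succ k ih => obtain ⟨d, h⟩ := ih; exact ⟨d + k + e * d, by rw [pow_succ, h]; ring⟩
    have h2 := (Nat.lt_pow_self (n := k) hp).le
    have h3 := Nat.lt_pow_self (n := p ^ k * n + k * n + 2) hp
    obtain ⟨s, hs⟩ : ∃ s, p ^ k * n + k * n + 2 < p ^ s := ⟨_, h3⟩
    obtain ⟨e, he⟩ : ∃ e, p ^ s = e + 1 := ⟨p ^ s - 1, by omega⟩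
    obtain ⟨d, hd⟩ := h1 e k
    exact ⟨e + 1, e * (k + e * d), e * (k + e * d) * n, e * d, d, e * (n * d), n * d, p ^ k,
      p ^ k * n, ⟨s, he.symm, by ring⟩, ⟨s * k, by rw [pow_mul, he, hd], by ring⟩,
      ⟨s, he.symm, by ring⟩, ⟨s, he.symm, by ring⟩, ⟨s, he.symm, by ring⟩, ⟨k, rfl, rfl⟩, h2,
      by omega, by omega⟩
  · rintro ⟨a, R, N, D, d, C, c, b, B, ⟨_, -, h1⟩, ⟨_, -, h2⟩, ⟨_, -, h3⟩, ⟨_, -, h4⟩, ⟨_, -, h5⟩,
      ⟨_, -, h6⟩, h7, h8, h9⟩
    obtain ⟨e, rfl⟩ : ∃ e, a = e + 1 := ⟨a - 1, by omega⟩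
    obtain rfl : R = e * (k + D) := by linarith
    obtain rfl : D = e * d := by linarith
    obtain rfl : C = e * c := by linarith
    have h10 : k * n + e * (d * n) = m + e * c :=
      Nat.eq_of_mul_eq_mul_left (show 0 < e by omega) (by linarith)
    have h11 := congrArg (· % e) h10
    have h12 : k * n ≤ B := h6 ▸ Nat.mul_le_mul_right n h7
    simp only [Nat.add_mul_mod_self_left] at h11
    rwa [Nat.mod_eq_of_lt (by omega), Nat.mod_eq_of_lt (by omega)] at h11

theorem DN.ren {R : (V → ℕ) → Prop} (h : DN F R) (e : V → W) : DN F fun ρ => R fun i => ρ (e i) := by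
  obtain ⟨S, hS, h⟩ := h
  exact ⟨_, hS.comp _ fun i => .var (e i), fun x n k => h _ _ fun i => k _⟩

theorem DN.of_iff {R Q : (V → ℕ) → Prop} (h : DN F R) (e : ∀ ρ, Q ρ ↔ R ρ) : DN F Q :=
  (funext fun x => propext (e x)) ▸ h

variable {p : ℕ} [hpp : Fq F p] [Finite F] (hp : 3 ≤ p)
include hpp hp

theorem Dio.le {f g : (α → RatFunc F) → RatFunc F} (h : IsP f) (k : IsP g) :
    Dio fun x => Le (f x) (g x) :=
  .ex (.and p (.eq ((IsP.var _).mul (h.ren _)) (IsP.tt.mul (k.ren _))) (.pos hp (.var _)))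

theorem Dio.nt {f : (α → RatFunc F) → RatFunc F} (h : IsP f) : Dio fun x => Nt (f x) :=
  .ex (.and p (.eq ((h.ren _).mul (.var _)) .one) (.pos hp (IsP.tt.mul (h.ren _))))

namespace DN

variable {R Q : (V → ℕ) → Prop} {f g k : (V → ℕ) → ℕ}

omit [Finite F] hp in
theorem and (h : DN F R) (k : DN F Q) : DN F fun ρ => R ρ ∧ Q ρ := by
  obtain ⟨S, hS, h⟩ := h
  obtain ⟨T, hT, k⟩ := k
  exact ⟨_, .and p hS hT, fun x n e => and_congr (h x n e) (k x n e)⟩

theorem le (h : TA F f) (k : TA F g) : DN F fun ρ => f ρ ≤ g ρ := by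
  obtain ⟨a, ha, h⟩ := h
  obtain ⟨b, hb, k⟩ := k
  exact ⟨_, .le hp ha hb, fun x n e => le_iff (h x n e) (k x n e)⟩

theorem eq (h : TA F f) (k : TA F g) : DN F fun ρ => f ρ = g ρ :=
  (and (p := p) (le hp h k) (le hp k h)).of_iff fun _ => le_antisymm_iff

theorem ex {R : ℕ → (V → ℕ) → Prop}
    (h : DN F fun ρ : Option V → ℕ => R (ρ none) fun i => ρ (some i)) :
    DN F fun ρ => ∃ y, R y ρ := by
  obtain ⟨S, hS, h⟩ := h
  refine ⟨fun x => ∃ y, Nt y ∧ S fun o => o.elim y x, .ex (.and p (.nt hp (.var _))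
    (hS.comp _ fun o => by cases o <;> exact .var _)), fun x n e => ⟨fun ⟨y, hy, k⟩ => ?_,
    fun ⟨m, k⟩ => ⟨_, nt_iff.2 ⟨m, md_X m⟩, (h _ (fun o => o.elim m n) fun o => ?_).2 k⟩⟩⟩
  · obtain ⟨m, hm⟩ := nt_iff.1 hy
    exact ⟨m, (h _ (fun o => o.elim m n) fun o => by cases o; exacts [hm, e _]).1 k⟩
  · cases o
    exacts [md_X m, e _]

theorem mp (hf : TA F f) (hg : TA F g) (hk : TA F k) : DN F fun ρ => MP p (f ρ) (g ρ) (k ρ) := by
  obtain ⟨a, ha, hf⟩ := hf
  obtain ⟨b, hb, hg⟩ := hg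
  obtain ⟨c, hc, hk⟩ := hk
  refine ⟨fun x => ∃ τ y, Fr p (b x) y τ ∧ Le τ (a x) ∧ Le (a x) τ ∧ Le y (c x) ∧ Le (c x) y, ?_,
    fun x n e => ⟨?_, ?_⟩⟩
  · repeat' with_reducible first
      | apply Dio.ex | apply Dio.and p | apply Dio.fr hp | apply Dio.le hp | exact .var _
      | exact ha.ren _ | exact hb.ren _ | exact hc.ren _
  · rintro ⟨_, _, ⟨s, rfl, rfl⟩, h1, h2, h3, h4⟩
    rw [le_iff (md_X _) (hf x n e)] at h1
    rw [le_iff (hf x n e) (md_X _)] at h2
    rw [le_iff ((hg x n e).pow _) (hk x n e)] at h3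
    rw [le_iff (hk x n e) ((hg x n e).pow _)] at h4
    exact ⟨s, le_antisymm h2 h1, by rw [le_antisymm h2 h1, le_antisymm h4 h3]⟩
  · rintro ⟨s, h1, h2⟩
    rw [h1] at h2
    exact ⟨_, _, ⟨s, rfl, rfl⟩, (le_iff (md_X _) (hf x n e)).2 h1.ge,
      (le_iff (hf x n e) (md_X _)).2 h1.le, (le_iff ((hg x n e).pow _) (hk x n e)).2 h2.ge,
      (le_iff (hk x n e) ((hg x n e).pow _)).2 h2.le⟩

theorem mul (i j l : V) : DN F fun ρ => ρ i * ρ j = ρ l := by
  simp only [mul_iff (p := p) (by omega)]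
  repeat' with_reducible first
    | apply ex hp | apply and (p := p) | apply mp hp | apply le hp | apply TA.add | exact .var _
    | exact .const _

end DN

variable (F) in
def Gr (f : (V → ℕ) → ℕ) : Prop :=
  ∀ (W : Type) (e : V → W) (j : W), DN F fun ρ => ρ j = f fun i => ρ (e i)

theorem Gr.add {f g : (V → ℕ) → ℕ} (h : Gr F f) (k : Gr F g) : Gr F fun ρ => f ρ + g ρ :=
  fun W e j => (DN.ex hp (R := fun a ρ => ∃ b, a = (f fun i => ρ (e i)) ∧
    b = (g fun i => ρ (e i)) ∧ ρ j = a + b) (.ex hp (.and (p := p) (h _ _ _) (.and (p := p) (k _ _ _)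
      (.eq hp (.var _) (.add (.var _) (.var _))))))).of_iff fun _ => by simp

theorem Gr.mul {f : (V → ℕ) → ℕ} (h : Gr F f) (v : V) : Gr F fun ρ => f ρ * ρ v :=
  fun W e j => (DN.ex hp (R := fun a ρ => a = (f fun i => ρ (e i)) ∧ a * ρ (e v) = ρ j)
    (.and (p := p) (h _ _ _) (.mul hp _ _ _))).of_iff fun _ => by simp [eq_comm]

theorem dn_poly (P : MvPolynomial V ℤ) :
    DN F fun ρ : V → ℕ => MvPolynomial.aeval (fun o => (ρ o : ℤ)) P = 0 := by
  have : ∃ f g, Gr F f ∧ Gr F g ∧ ∀ ρ : V → ℕ,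
      MvPolynomial.aeval (fun o => (ρ o : ℤ)) P = (f ρ : ℤ) - g ρ := by
    induction P using MvPolynomial.induction_on with
    | C a => exact ⟨fun _ => a.toNat, fun _ => (-a).toNat, fun _ _ _ => .eq hp (.var _) (.const _),
        fun _ _ _ => .eq hp (.var _) (.const _), fun _ => by simp⟩
    | add P Q h k =>
      obtain ⟨f, g, hf, hg, h⟩ := h
      obtain ⟨f', g', hf', hg', k⟩ := k
      exact ⟨_, _, hf.add hp hf', hg.add hp hg', fun ρ => by simp only [map_add, h, k]; push_cast; ring⟩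
    | mul_X P v h =>
      obtain ⟨f, g, hf, hg, h⟩ := h
      exact ⟨_, _, hf.mul hp v, hg.mul hp v, fun ρ => by
        simp only [map_mul, h, MvPolynomial.aeval_X]; push_cast; ring⟩
  obtain ⟨f, g, hf, hg, h⟩ := this
  exact (DN.ex hp (R := fun a ρ => a = f ρ ∧ a = g ρ) (.and (p := p) (hf _ _ _) (hg _ _ _))).of_iff
    fun ρ => by simp [h, sub_eq_zero]

/-- Pheidas, Videla: recursively enumerable sets are Diophantine over the rational function field. -/
theorem pheidas {S : ℕ → Prop} (hS : REPred S) : ∃ T : (Unit → RatFunc F) → Prop, Dio T ∧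
    ∀ a : ℕ, S a ↔ T fun _ => RatFunc.X ^ a := by
  obtain ⟨m, P, hP⟩ := Pool.Agent.Shared.MRDP.mrdp_nat hS
  obtain ⟨T, hT, h⟩ := dn_poly (F := F) hp P
  refine ⟨_, Dio.exB (S := fun (y : Fin m → RatFunc F) (x : Unit → RatFunc F) =>
    (∀ i, Nt (y i)) ∧ T (Sum.elim x y)) (.and p (.all p fun i => .nt hp (.var _))
      (hT.comp _ fun o => by cases o <;> exact .var _)), fun a => (hP a).trans
    ⟨fun ⟨w, hw⟩ => ⟨fun i => RatFunc.X ^ w i, fun i => nt_iff.2 ⟨_, md_X _⟩,
      (h _ _ fun o => by cases o <;> exact md_X _).2 hw⟩, fun ⟨y, hy, k⟩ => ?_⟩⟩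
  choose w hw using fun i => nt_iff.1 (hy i)
  exact ⟨w, (h _ _ fun o => by cases o; exacts [md_X _, hw _]).1 k⟩

end Pool.Agent.Lib.MP_c72338_lc.Ph
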