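import Pool.Agent.Lib.MP_c72338_lc.Red

/-!
Systems of linear equations in affinely independent monomials.

The variables come in groups of six, `r, e, p, q, η, ξ`, with the six monomials
`r, e, p, q, r e p^(i-1) η^i, r e q^(j-1) ξ^j`.  Four linear equations in these monomials force
`e = (r - a) (r - b)` as soon as `a H^i - b Ξ^j + (b - a) = 0` forces `H^i = 1`.
-/

namespace Pool.Agent.Lib.MP_c72338_lc.Sys

open Finset Pool.Agent.Shared.Type2

/-- Terms: integer coefficient, power of the parameter `t`, number of the monomial. -/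
abbrev Eqn : Type := List (ℤ × ℕ × ℕ)

/-- Terms: integer coefficient, power of the parameter `t`, list of variable numbers. -/
abbrev Inp : Type := List (ℤ × ℕ × List ℕ)

def tab (i j s u : ℕ) : ℕ :=
  (([[1, 0, 0, 0, 0, 0], [0, 1, 0, 0, 0, 0], [0, 0, 1, 0, 0, 0], [0, 0, 0, 1, 0, 0],
    [1, 1, i - 1, 0, i, 0], [1, 1, 0, j - 1, 0, j]] : List (List ℕ)).getD s []).getD u 0

/-- Exponent of the variable `u` in the monomial `v`. -/
def expo (i j v u : ℕ) : ℕ :=
  if v = 0 then 0 else if u / 6 = (v - 1) / 6 then tab i j ((v - 1) % 6) (u % 6) else 0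

def gad (a : ℤ) (k : ℕ) (b : ℤ) (g : ℕ) : List Eqn :=
  [[(1, 0, 6 * g + 3), (-1, 0, 6 * g + 1), (b, 0, 0)],
   [(1, 0, 6 * g + 4), (-1, 0, 6 * g + 1), (a, k, 0)],
   [(1, 0, 6 * g + 2), (b, 0, 6 * g + 1), (-(a * b), k, 0), (-1, 0, 6 * g + 5)],
   [(1, 0, 6 * g + 2), (a, k, 6 * g + 1), (-(a * b), k, 0), (-1, 0, 6 * g + 6)]]

def lst (f : Inp) (j : ℕ) : List ℕ := (f.getD j (0, 0, [])).2.2

def prv (c : ℕ) : ℕ := Nat.pair c.unpair.1 (c.unpair.2 - 1)

def var (f : Inp) (c : ℕ) : ℕ := (lst f c.unpair.1).getD (c.unpair.2 - 1) 0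

def blk (a : ℤ) (k : ℕ) (b : ℤ) (f : Inp) (c : ℕ) : List Eqn :=
  gad a k b (5 * c) ++ gad a k b (5 * c + 1) ++ gad a k b (5 * c + 2) ++ gad a k b (5 * c + 3) ++
  [[(1, 0, 6 * (5 * c + 1) + 1), (-1, 0, 6 * (5 * c) + 1), (-1, 0, 6 * (5 * prv c + 4) + 2)],
   [(1, 0, 6 * (5 * c + 2) + 1), (-1, 0, 6 * (5 * c) + 1), (-1, 0, 6 * (5 * var f c + 4) + 1)],
   [(1, 0, 6 * (5 * c + 3) + 1), (-1, 0, 6 * (5 * c) + 1), (-1, 0, 6 * (5 * prv c + 4) + 2),
     (-1, 0, 6 * (5 * var f c + 4) + 1)],
   if c.unpair.2 = 0 then [(1, 0, 6 * (5 * c + 4) + 2), (-1, 0, 0)] else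
     [(2, 0, 6 * (5 * c + 4) + 2), (-1, 0, 6 * (5 * c + 3) + 2), (1, 0, 6 * (5 * c + 1) + 2),
       (1, 0, 6 * (5 * c + 2) + 2), (-1, 0, 6 * (5 * c) + 2)]]

def last (f : Inp) : Eqn :=
  (List.range f.length).map fun j => ((f.getD j (0, 0, [])).1, (f.getD j (0, 0, [])).2.1,
    6 * (5 * Nat.pair j (lst f j).length + 4) + 2)

def bnd (f : Inp) : ℕ :=
  ((List.range f.length).map fun j => Nat.pair j (lst f j).length +
    (lst f j).foldr (fun a b => a + b) 0).foldr (fun a b => a + b) 0 + 1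

def sys (a : ℤ) (k : ℕ) (b : ℤ) (f : Inp) : List Eqn :=
  last f :: (List.range (bnd f)).flatMap fun c => blk a k b f c

/-- The exponent list of the monomial `v`, multiplied by `q`. -/
def mon (i j q n v : ℕ) : List ℕ := (List.range n).map fun u => expo i j v u * q

section comp

variable {X : Type} [Rep X]

attribute [fun_prop] TD.npair

@[fun_prop] theorem td_expo {i j v u : X → ℕ} (hi : TD i) (hj : TD j) (hv : TD v) (hu : TD u) :
    TD fun x => expo (i x) (j x) (v x) (u x) := by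
  unfold expo tab; fun_prop
@[fun_prop] theorem td_mon {i j q n v : X → ℕ} (hi : TD i) (hj : TD j) (hq : TD q) (hn : TD n)
    (hv : TD v) : TD fun x => mon (i x) (j x) (q x) (n x) (v x) := by
  unfold mon; fun_prop
@[fun_prop] theorem td_gad (a : ℤ) (k : ℕ) (b : ℤ) {g : X → ℕ} (hg : TD g) :
    TD fun x => gad a k b (g x) := by
  unfold gad; fun_prop
@[fun_prop] theorem td_lst {f : X → Inp} {j : X → ℕ} (hf : TD f) (hj : TD j) :
    TD fun x => lst (f x) (j x) := by
  unfold lst; fun_prop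
@[fun_prop] theorem td_prv {c : X → ℕ} (hc : TD c) : TD fun x => prv (c x) := by
  unfold prv; fun_prop
@[fun_prop] theorem td_var {f : X → Inp} {c : X → ℕ} (hf : TD f) (hc : TD c) :
    TD fun x => var (f x) (c x) := by
  unfold var; fun_prop
@[fun_prop] theorem td_blk (a : ℤ) (k : ℕ) (b : ℤ) {f : X → Inp} {c : X → ℕ} (hf : TD f)
    (hc : TD c) : TD fun x => blk a k b (f x) (c x) := by
  unfold blk; fun_prop
@[fun_prop] theorem td_last {f : X → Inp} (hf : TD f) : TD fun x => last (f x) := by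
  unfold last; fun_prop
@[fun_prop] theorem td_bnd {f : X → Inp} (hf : TD f) : TD fun x => bnd (f x) := by
  unfold bnd; fun_prop
@[fun_prop] theorem td_sys (a : ℤ) (k : ℕ) (b : ℤ) {f : X → Inp} (hf : TD f) :
    TD fun x => sys a k b (f x) := by
  unfold sys; fun_prop

end comp

theorem tab_lt (i j : ℕ) : ∀ s < 6, ∀ u < 6, s < u → tab i j s u = 0 := by
  intro s hs u hu h
  interval_cases s <;> interval_cases u <;> first | omega | rfl

theorem tab_self {i j : ℕ} (hi : 0 < i) (hj : 0 < j) : ∀ s < 6, tab i j s s ≠ 0 := by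
  intro s hs
  interval_cases s <;> simp [tab] <;> omega

theorem indep {i j q : ℕ} (hi : 0 < i) (hj : 0 < j) (hq : 0 < q) (n : ℕ) :
    AffineIndependent ℚ fun (v : Fin (n + 1)) (u : Fin n) => ((expo i j v u * q : ℕ) : ℚ) := by
  rw [affineIndependent_iff_of_fintype]
  intro w h0 h1
  rw [Finset.weightedVSub_eq_linear_combination _ h0] at h1
  have hd : (Matrix.of fun v u : Fin n => ((expo i j (v + 1) u * q : ℕ) : ℚ)).det ≠ 0 := by
    rw [Matrix.det_of_isLowerTriangular]
    · refine prod_ne_zero_iff.2 fun v _ => ?_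
      have := tab_self hi hj (v % 6) (Nat.mod_lt _ (by norm_num))
      simp [expo, this, hq.ne']
    · intro v u h
      have h' : (v : ℕ) < u := h
      simp only [expo, Matrix.of_apply, Nat.add_sub_cancel, Nat.add_eq_zero_iff, one_ne_zero,
        and_false, ↓reduceIte]
      split_ifs with h6
      · rw [tab_lt i j _ (Nat.mod_lt _ (by norm_num)) _ (Nat.mod_lt _ (by norm_num)) (by omega)]
        simp
      · simp
  have h2 := Matrix.eq_zero_of_vecMul_eq_zero hd (v := fun v => w v.succ) (by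
    funext u
    have := congrFun h1 u
    simp only [Fin.sum_univ_succ, Finset.sum_apply, Pi.smul_apply] at this
    simpa [Matrix.vecMul, dotProduct, expo] using this)
  have h3 : ∀ v : Fin n, w v.succ = 0 := congrFun h2
  refine Fin.cases ?_ h3
  simpa [Fin.sum_univ_succ, h3] using h0

theorem indep_list {i j q : ℕ} (hi : 0 < i) (hj : 0 < j) (hq : 0 < q) (n : ℕ) (A : List (List ℕ))
    (hA : A = (List.range (n + 1)).map (mon i j q n)) :
    AffineIndependent ℚ fun (v : Fin A.length) (u : Fin n) => ((A[v].getD u 0 : ℕ) : ℚ) := by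
  subst hA
  have h := (indep hi hj hq n).comp_embedding (finCongr (show
    ((List.range (n + 1)).map (mon i j q n)).length = n + 1 by simp)).toEmbedding
  refine (congrArg _ ?_).mp h
  funext v u
  simp [mon, List.getD_eq_getElem?_getD]

variable {K : Type} [Field K]

/-- The value of the monomial `v`. -/
def mv (i j n : ℕ) (z : ℕ → K) (v : ℕ) : K := ∏ u ∈ range n, z u ^ expo i j v u

theorem prod_mon (i j q n v : ℕ) (z : ℕ → K) :
    ∏ u : Fin (mon i j q n v).length, z u ^ (mon i j q n v)[u] = mv i j n z v ^ q := by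
  rw [mv, ← prod_pow, prod_range]
  refine Fintype.prod_equiv (finCongr (by simp [mon])) _ _ fun u => ?_
  rw [← pow_mul]
  exact congrArg _ ((List.getElem_map _).trans (by simp))

theorem mv_zero (i j n : ℕ) (z : ℕ → K) : mv i j n z 0 = 1 := by simp [mv, expo]

theorem mv_grp (i j : ℕ) {n g s : ℕ} (hg : 6 * g + 6 ≤ n) (hs : s < 6) (z : ℕ → K) :
    mv i j n z (6 * g + (s + 1)) = ∏ u ∈ range 6, z (6 * g + u) ^ tab i j s u := by
  obtain ⟨c, rfl⟩ := Nat.exists_eq_add_of_le hg
  have e1 : (6 * g + (s + 1) - 1) / 6 = g := by omega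
  have e2 : (6 * g + (s + 1) - 1) % 6 = s := by omega
  rw [mv, prod_range_add, prod_range_add, prod_eq_one, prod_eq_one (s := range c), one_mul, mul_one]
  · refine prod_congr rfl fun u hu => ?_
    have := mem_range.1 hu
    rw [expo, if_neg (by omega), e1, e2, if_pos (by omega), show (6 * g + u) % 6 = u by omega]
  · intro u _
    rw [expo, if_neg (by omega), e1, if_neg (by omega), pow_zero]
  · intro u hu
    have := mem_range.1 hu
    rw [expo, if_neg (by omega), e1, if_neg (by omega), pow_zero]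

/-- The values of the six monomials of a group. -/
theorem mv_six (i j : ℕ) {n g : ℕ} (hg : 6 * g + 6 ≤ n) (z : ℕ → K) :
    mv i j n z (6 * g + 1) = z (6 * g) ∧ mv i j n z (6 * g + 2) = z (6 * g + 1) ∧
    mv i j n z (6 * g + 3) = z (6 * g + 2) ∧ mv i j n z (6 * g + 4) = z (6 * g + 3) ∧
    mv i j n z (6 * g + 5) =
      z (6 * g) * z (6 * g + 1) * z (6 * g + 2) ^ (i - 1) * z (6 * g + 4) ^ i ∧
    mv i j n z (6 * g + 6) =
      z (6 * g) * z (6 * g + 1) * z (6 * g + 3) ^ (j - 1) * z (6 * g + 5) ^ j := by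
  refine ⟨(mv_grp i j hg (s := 0) (by norm_num) z).trans ?_,
    (mv_grp i j hg (s := 1) (by norm_num) z).trans ?_,
    (mv_grp i j hg (s := 2) (by norm_num) z).trans ?_,
    (mv_grp i j hg (s := 3) (by norm_num) z).trans ?_,
    (mv_grp i j hg (s := 4) (by norm_num) z).trans ?_,
    (mv_grp i j hg (s := 5) (by norm_num) z).trans ?_⟩ <;> simp [prod_range_succ, tab]

def evS (t : K) (m : ℕ → K) (E : Eqn) : K := (E.map fun s => (s.1 : K) * t ^ s.2.1 * m s.2.2).sum

def evG (t : K) (f : Inp) (x : ℕ → K) : K :=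
  (f.map fun s => (s.1 : K) * t ^ s.2.1 * (s.2.2.map x).prod).sum

theorem alg_sound {i j : ℕ} (hi : 0 < i) (hj : 0 < j) {a b : K} (hab : a ≠ b) (hb : b ≠ 0)
    (hR : ∀ H Ξ : K, a * H ^ i - b * Ξ ^ j + (b - a) = 0 → H ^ i = 1) {r e η ξ : K}
    (h1 : e + b * r - a * b = r * e * (r - b) ^ (i - 1) * η ^ i)
    (h2 : e + a * r - a * b = r * e * (r - a) ^ (j - 1) * ξ ^ j) : e = (r - a) * (r - b) := by
  obtain ⟨i, rfl⟩ := Nat.exists_eq_add_of_lt hi
  obtain ⟨j, rfl⟩ := Nat.exists_eq_add_of_lt hj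
  simp only [zero_add, Nat.add_sub_cancel] at *
  by_cases h : r * e = 0
  · rw [h, zero_mul, zero_mul] at h1 h2
    have h3 : r = 0 := (mul_eq_zero.1 (show (a - b) * r = 0 by linear_combination h2 - h1)).resolve_left
      (sub_ne_zero.2 hab)
    subst h3
    linear_combination h1
  · have h3 := hR ((r - b) * η) ((r - a) * ξ) (mul_left_cancel₀ h (by
      rw [mul_pow, mul_pow, pow_succ (r - b), pow_succ (r - a)]
      linear_combination b * (r - a) * h2 - a * (r - b) * h1))
    rw [mul_pow, pow_succ (r - b)] at h3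
    exact mul_left_cancel₀ hb (by linear_combination -(r - b) * h1 - r * e * h3)

theorem alg_complete {i : ℕ} (hi : 0 < i) {a b r : K} (h : r - b ≠ 0) :
    (r - a) * (r - b) + b * r - a * b = r * ((r - a) * (r - b)) * (r - b) ^ (i - 1) * (r - b)⁻¹ ^ i := by
  obtain ⟨i, rfl⟩ := Nat.exists_eq_add_of_lt hi
  simp only [zero_add, Nat.add_sub_cancel, inv_pow]
  field_simp
  ring

theorem prv_le (c : ℕ) : prv c ≤ c := by
  conv_rhs => rw [← Nat.pair_unpair c]
  rcases Nat.eq_zero_or_pos c.unpair.2 with h | h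
  · simp [prv, h]
  · exact (Nat.pair_lt_pair_right _ (by omega)).le

theorem le_bnd (f : Inp) {j : ℕ} (hj : j < f.length) :
    Nat.pair j (lst f j).length + (lst f j).sum < bnd f :=
  Nat.lt_succ_of_le (List.single_le_sum (l := (List.range f.length).map fun j =>
    Nat.pair j (lst f j).length + (lst f j).sum) (by simp) _
    (List.mem_map.2 ⟨j, List.mem_range.2 hj, rfl⟩))

theorem var_lt (f : Inp) (c : ℕ) : var f c < bnd f := by
  rw [var, List.getD_eq_getElem?_getD]
  cases h : (lst f c.unpair.1)[c.unpair.2 - 1]? with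
  | none => exact Nat.succ_pos _
  | some v =>
    have h1 := List.mem_of_getElem? h
    have h2 : c.unpair.1 < f.length := by
      by_contra h3
      rw [lst, List.getD_eq_default _ _ (not_lt.1 h3)] at h1
      simp at h1
    have := le_bnd f h2
    have := List.single_le_sum (l := lst f c.unpair.1) (by simp) _ h1
    simp only [Option.getD_some]
    omega

theorem idx_le (a : ℤ) (k : ℕ) (b : ℤ) (f : Inp) :
    ∀ E ∈ sys a k b f, ∀ s ∈ E, s.2.2 ≤ 30 * bnd f := by
  simp only [sys, List.mem_cons, List.mem_flatMap, List.mem_range]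
  rintro E (rfl | ⟨c, hc, hE⟩)
  · simp only [last, List.mem_map, List.mem_range]
    rintro _ ⟨j, hj, rfl⟩
    have := le_bnd f hj
    simp only
    omega
  · have h1 := prv_le c
    have h2 := var_lt f c
    revert E
    simp only [blk, gad]
    split_ifs <;> simp only [List.cons_append, List.nil_append, List.mem_cons, List.not_mem_nil,
      or_false, forall_eq_or_imp, forall_eq] <;> omega

theorem evG_eq (t : K) (f : Inp) (x : ℕ → K) (m : ℕ → K) (h : ∀ j < f.length,
      m (6 * (5 * Nat.pair j (lst f j).length + 4) + 2) =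
        ∏ u ∈ range (lst f j).length, x ((lst f j).getD u 0)) :
    evS t m (last f) = evG t f x := by
  rw [evS, evG, last, List.map_map, ← List.sum_toFinset _ List.nodup_range, List.toFinset_range,
    ← Fin.sum_univ_fun_getElem, sum_range]
  refine sum_congr rfl fun j _ => ?_
  simp only [Function.comp, h j j.2]
  simp only [lst, List.getD_eq_getElem _ _ j.2]
  rw [← Fin.prod_univ_fun_getElem, prod_range]
  congr 1
  exact prod_congr rfl fun u _ => by rw [List.getD_eq_getElem _ _ u.2]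

section main

variable {i j : ℕ} (hi : 0 < i) (hj : 0 < j) (a : ℤ) (k : ℕ) (b : ℤ) (t : K)

include hi hj

theorem gad_sound (hab : (a : K) * t ^ k ≠ b) (hb : (b : K) ≠ 0)
    (hR : ∀ H Ξ : K, a * t ^ k * H ^ i - b * Ξ ^ j + (b - a * t ^ k) = 0 → H ^ i = 1)
    {n g : ℕ} (hg : 6 * g + 6 ≤ n) (z : ℕ → K)
    (h : ∀ E ∈ gad a k b g, evS t (mv i j n z) E = 0) :
    z (6 * g + 1) = (z (6 * g) - a * t ^ k) * (z (6 * g) - b) := by
  obtain ⟨m1, m2, m3, m4, m5, m6⟩ := mv_six i j hg z
  simp only [gad, evS, List.mem_cons, List.not_mem_nil, or_false, forall_eq_or_imp, forall_eq,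
    List.map_cons, List.map_nil, List.sum_cons, List.sum_nil, mv_zero, m1, m2, m3, m4, m5,
    m6] at h
  push_cast at h
  obtain ⟨h1, h2, h3, h4⟩ := h
  have e1 : z (6 * g + 2) = z (6 * g) - b := by linear_combination h1
  have e2 : z (6 * g + 3) = z (6 * g) - a * t ^ k := by linear_combination h2
  rw [e1] at h3
  rw [e2] at h4
  exact alg_sound hi hj hab hb hR (η := z (6 * g + 4)) (ξ := z (6 * g + 5))
    (by linear_combination h3) (by linear_combination h4)

theorem gad_complete {n g : ℕ} (hg : 6 * g + 6 ≤ n) (z : ℕ → K) {r : K}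
    (ha : r - a * t ^ k ≠ 0) (hb : r - b ≠ 0) (z0 : z (6 * g) = r)
    (z1 : z (6 * g + 1) = (r - a * t ^ k) * (r - b)) (z2 : z (6 * g + 2) = r - b)
    (z3 : z (6 * g + 3) = r - a * t ^ k) (z4 : z (6 * g + 4) = (r - b)⁻¹)
    (z5 : z (6 * g + 5) = (r - a * t ^ k)⁻¹) : ∀ E ∈ gad a k b g, evS t (mv i j n z) E = 0 := by
  obtain ⟨m1, m2, m3, m4, m5, m6⟩ := mv_six i j hg z
  simp only [gad, evS, List.mem_cons, List.not_mem_nil, or_false, forall_eq_or_imp, forall_eq,
    List.map_cons, List.map_nil, List.sum_cons, List.sum_nil, mv_zero, m1, m2, m3, m4, m5,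
    m6, z0, z1, z2, z3, z4, z5]
  push_cast
  refine ⟨by ring, by ring, ?_, ?_⟩
  · linear_combination alg_complete hi (a := a * t ^ k) hb
  · have := alg_complete hj (a := (b : K)) ha
    rw [mul_comm (r - b)] at this
    linear_combination this

theorem sound (h2 : (2 : K) ≠ 0) (hab : (a : K) * t ^ k ≠ b) (hb : (b : K) ≠ 0)
    (hR : ∀ H Ξ : K, a * t ^ k * H ^ i - b * Ξ ^ j + (b - a * t ^ k) = 0 → H ^ i = 1)
    (f : Inp) (z : ℕ → K) (h : ∀ E ∈ sys a k b f, evS t (mv i j (30 * bnd f) z) E = 0) :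
    ∃ x, evG t f x = 0 := by
  simp only [sys, List.mem_cons, List.mem_flatMap, List.mem_range, forall_eq_or_imp] at h
  obtain ⟨h0, h⟩ := h
  have key : ∀ c < bnd f, z (6 * (5 * c + 4) + 1) = if c.unpair.2 = 0 then 1 else
      z (6 * (5 * prv c + 4) + 1) * z (6 * (5 * var f c + 4)) := by
    intro c hc
    have hc' : ∀ E ∈ blk a k b f c, evS t (mv i j (30 * bnd f) z) E = 0 :=
      fun E hE => h E ⟨c, hc, hE⟩
    have p1 := prv_le c
    have p2 := var_lt f c
    simp only [blk, List.forall_mem_append] at hc'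
    obtain ⟨⟨⟨⟨g0, g1⟩, g2⟩, g3⟩, g4⟩ := hc'
    have s0 := gad_sound hi hj a k b t hab hb hR (by omega) z g0
    have s1 := gad_sound hi hj a k b t hab hb hR (by omega) z g1
    have s2 := gad_sound hi hj a k b t hab hb hR (by omega) z g2
    have s3 := gad_sound hi hj a k b t hab hb hR (by omega) z g3
    have m := fun g (hg : 6 * g + 6 ≤ 30 * bnd f) => mv_six i j hg z
    split_ifs at g4 ⊢ with hk <;>
    simp only [evS, List.mem_cons, List.not_mem_nil, or_false, forall_eq_or_imp, forall_eq,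
      List.map_cons, List.map_nil, List.sum_cons, List.sum_nil, mv_zero,
      (m (5 * c) (by omega)).1, (m (5 * c + 1) (by omega)).1, (m (5 * c + 2) (by omega)).1,
      (m (5 * c + 3) (by omega)).1, (m (5 * c) (by omega)).2.1, (m (5 * c + 1) (by omega)).2.1,
      (m (5 * c + 2) (by omega)).2.1, (m (5 * c + 3) (by omega)).2.1,
      (m (5 * c + 4) (by omega)).2.1, (m (5 * prv c + 4) (by omega)).2.1,
      (m (5 * var f c + 4) (by omega)).1] at g4 <;>
    push_cast at g4 <;> obtain ⟨e1, e2, e3, e4⟩ := g4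
    · linear_combination e4
    · have f1 : z (6 * (5 * c + 1)) = z (6 * (5 * c)) + z (6 * (5 * prv c + 4) + 1) := by
        linear_combination e1
      have f2 : z (6 * (5 * c + 2)) = z (6 * (5 * c)) + z (6 * (5 * var f c + 4)) := by
        linear_combination e2
      have f3 : z (6 * (5 * c + 3)) =
          z (6 * (5 * c)) + z (6 * (5 * prv c + 4) + 1) + z (6 * (5 * var f c + 4)) := by
        linear_combination e3
      rw [s0, s1, s2, s3, f1, f2, f3] at e4
      exact mul_left_cancel₀ h2 (by linear_combination e4)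
  refine ⟨fun v => z (6 * (5 * v + 4)), (evG_eq t f _ _ fun l hl => ?_).symm.trans h0⟩
  have hl' := le_bnd f hl
  rw [(mv_six i j (by omega) z).2.1]
  have : ∀ s, Nat.pair l s < bnd f → z (6 * (5 * Nat.pair l s + 4) + 1) =
      ∏ u ∈ range s, z (6 * (5 * (lst f l).getD u 0 + 4)) := by
    intro s
    induction s with
    | zero => intro hs; simp [key _ hs]
    | succ s ih =>
      intro hs
      rw [key _ hs, prod_range_succ, ← ih ((Nat.pair_lt_pair_right _ s.lt_succ_self).trans hs)]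
      simp [prv, var]
  exact this _ (by omega)

theorem complete [Infinite K] (f : Inp) (x : ℕ → K) (h : evG t f x = 0) :
    ∃ z, ∀ E ∈ sys a k b f, evS t (mv i j (30 * bnd f) z) E = 0 := by
  classical
  let Z : ℕ → K := fun c => ∏ u ∈ range c.unpair.2, x ((lst f c.unpair.1).getD u 0)
  let D : ℕ → ℕ → K := fun c s => [0, Z (prv c), x (var f c), Z (prv c) + x (var f c)].getD s 0
  have hρ : ∀ c, ∃ ρ : K, ∀ s < 4, ρ + D c s - a * t ^ k ≠ 0 ∧ ρ + D c s - b ≠ 0 := fun c => by
    obtain ⟨ρ, hρ⟩ := Infinite.exists_notMem_finset (((range 4).image fun s => a * t ^ k - D c s) ∪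
      (range 4).image fun s => b - D c s)
    simp only [mem_union, mem_image, mem_range, not_or, not_exists, not_and] at hρ
    exact ⟨ρ, fun s hs => ⟨fun h => hρ.1 s hs (by linear_combination -h),
      fun h => hρ.2 s hs (by linear_combination -h)⟩⟩
  choose ρ hρ using hρ
  let R : ℕ → K := fun g => if g % 5 = 4 then x (g / 5) else ρ (g / 5) + D (g / 5) (g % 5)
  let w : ℕ → ℕ → K := fun g s => [R g, if g % 5 = 4 then Z (g / 5) else
    (R g - a * t ^ k) * (R g - b), R g - b, R g - a * t ^ k, (R g - b)⁻¹,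
    (R g - a * t ^ k)⁻¹].getD s 0
  let z : ℕ → K := fun u => w (u / 6) (u % 6)
  have hz : ∀ g, ∀ s < 6, z (6 * g + s) = w g s := fun g s hs => by
    simp only [z]
    rw [show (6 * g + s) / 6 = g by omega, show (6 * g + s) % 6 = s by omega]
  have hR : ∀ c, ∀ s < 4, R (5 * c + s) = ρ c + D c s := fun c s hs => by
    simp only [R]
    rw [if_neg (by omega), show (5 * c + s) / 5 = c by omega, show (5 * c + s) % 5 = s by omega]
  have r0 : ∀ c, ∀ s < 4, z (6 * (5 * c + s)) = ρ c + D c s := fun c s hs =>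
    (hz _ 0 (by norm_num)).trans (hR c s hs)
  have r1 : ∀ c, ∀ s < 4, z (6 * (5 * c + s) + 1) =
      (ρ c + D c s - a * t ^ k) * (ρ c + D c s - b) := fun c s hs => by
    rw [hz _ 1 (by norm_num), ← hR c s hs]
    exact if_neg (by omega)
  have x0 : ∀ c, z (6 * (5 * c + 4)) = x c := fun c => by
    refine (hz _ 0 (by norm_num)).trans ((if_pos (show (5 * c + 4) % 5 = 4 by omega)).trans ?_)
    rw [show (5 * c + 4) / 5 = c by omega]
  have x1 : ∀ c, z (6 * (5 * c + 4) + 1) = Z c := fun c => by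
    refine (hz _ 1 (by norm_num)).trans ((if_pos (show (5 * c + 4) % 5 = 4 by omega)).trans ?_)
    rw [show (5 * c + 4) / 5 = c by omega]
  have hg : ∀ c < bnd f, ∀ s < 4, ∀ E ∈ gad a k b (5 * c + s),
      evS t (mv i j (30 * bnd f) z) E = 0 := fun c hc s hs =>
    gad_complete hi hj a k b t (by omega) z (hρ c s hs).1 (hρ c s hs).2 (r0 c s hs) (r1 c s hs)
      (by rw [hz _ _ (by norm_num), ← hR c s hs]; rfl)
      (by rw [hz _ _ (by norm_num), ← hR c s hs]; rfl)
      (by rw [hz _ _ (by norm_num), ← hR c s hs]; rfl)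
      (by rw [hz _ _ (by norm_num), ← hR c s hs]; rfl)
  refine ⟨z, ?_⟩
  simp only [sys, List.mem_cons, List.mem_flatMap, List.mem_range, forall_eq_or_imp]
  refine ⟨(evG_eq t f x _ fun l hl => ?_).trans h, ?_⟩
  · have hl' := le_bnd f hl
    rw [(mv_six i j (by omega) z).2.1, x1]
    simp [Z]
  · rintro E ⟨c, hc, hE⟩
    revert E
    have p1 := prv_le c
    have p2 := var_lt f c
    have m := fun g (hg : 6 * g + 6 ≤ 30 * bnd f) => mv_six i j hg z
    simp only [blk, List.forall_mem_append]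
    refine ⟨⟨⟨⟨hg c hc 0 (by norm_num), hg c hc 1 (by norm_num)⟩, hg c hc 2 (by norm_num)⟩,
      hg c hc 3 (by norm_num)⟩, ?_⟩
    have q0 : z (6 * (5 * c)) = ρ c + 0 := r0 c 0 (by norm_num)
    have q1 : z (6 * (5 * c) + 1) = (ρ c + 0 - a * t ^ k) * (ρ c + 0 - b) := r1 c 0 (by norm_num)
    split_ifs with hk <;>
    simp only [evS, List.mem_cons, List.not_mem_nil, or_false, forall_eq_or_imp, forall_eq,
      List.map_cons, List.map_nil, List.sum_cons, List.sum_nil, mv_zero,
      (m (5 * c) (by omega)).1, (m (5 * c + 1) (by omega)).1, (m (5 * c + 2) (by omega)).1,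
      (m (5 * c + 3) (by omega)).1, (m (5 * c) (by omega)).2.1, (m (5 * c + 1) (by omega)).2.1,
      (m (5 * c + 2) (by omega)).2.1, (m (5 * c + 3) (by omega)).2.1,
      (m (5 * c + 4) (by omega)).2.1, (m (5 * prv c + 4) (by omega)).2.1,
      (m (5 * var f c + 4) (by omega)).1, x0, x1, q0, q1, r0 c 1 (by norm_num),
      r0 c 2 (by norm_num), r0 c 3 (by norm_num), r1 c 1 (by norm_num),
      r1 c 2 (by norm_num), r1 c 3 (by norm_num), D, List.getD_cons_succ, List.getD_cons_zero] <;>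
    push_cast <;> refine ⟨by ring, by ring, by ring, ?_⟩
    · simp [Z, hk]
    · have : Z c = Z (prv c) * x (var f c) := by
        obtain ⟨s, hs⟩ := Nat.exists_eq_succ_of_ne_zero hk
        simp [Z, prv, var, hs, prod_range_succ]
      rw [this]
      ring

end main

end Pool.Agent.Lib.MP_c72338_lc.Sys
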