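import Pool.Agent.Lib.MP_c72338_lc.Ph4
import Pool.Agent.Lib.MP_c72338_lc.Sys

/-!
Sets defined by linear equations in independent monomials over a rational function field of
positive characteristic.  The variables come in groups of seven, `x, y, P, Q, w, η, ξ`, with the
monomials `x, y, P, Q, w, w Q^(p-1) η^p, w P^(p-1) ξ^p`.
-/

namespace Pool.Agent.Lib.MP_c72338_lc.Ph

open Finset

variable {F : Type} [Field F] {α γ : Type}

/-- Affine functions with coefficients in the ring generated by the variable. -/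
inductive IsL {α : Type} : ((α → RatFunc F) → RatFunc F) → Prop
  | var (i : α) : IsL fun x => x i
  | one : IsL fun _ => 1
  | add {f g} : IsL f → IsL g → IsL fun x => f x + g x
  | int (c : ℤ) {f} : IsL f → IsL fun x => (c : RatFunc F) * f x
  | tm {f} : IsL f → IsL fun x => RatFunc.X * f x

namespace IsL

variable {f g : (α → RatFunc F) → RatFunc F}

theorem of_eq (h : IsL f) (e : ∀ x, f x = g x) : IsL g := funext e ▸ h
theorem tt : IsL fun _ : α → RatFunc F => (RatFunc.X : RatFunc F) := one.tm.of_eq fun _ => mul_one _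
theorem sub (h : IsL f) (k : IsL g) : IsL fun x => f x - g x :=
  (h.add (k.int (-1))).of_eq fun _ => by simp [sub_eq_add_neg]
theorem comp (h : IsL f) (g : α → (γ → RatFunc F) → RatFunc F) (hg : ∀ i, IsL (g i)) :
    IsL fun x => f fun i => g i x := by
  induction h with
  | var i => exact hg i
  | one => exact one
  | add _ _ a b => exact a.add b
  | int c _ a => exact a.int c
  | tm _ a => exact a.tm
theorem ren (h : IsL f) (e : α → γ) : IsL fun x => f fun i => x (e i) := h.comp _ fun _ => var _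

theorem eqn (h : IsL f) (e : α → ℕ) : ∃ E : Sys.Eqn, ∀ m : ℕ → RatFunc F, m 0 = 1 →
    Sys.evS RatFunc.X m E = f fun i => m (e i) := by
  induction h with
  | var i => exact ⟨[(1, 0, e i)], fun m _ => by simp [Sys.evS]⟩
  | one => exact ⟨[(1, 0, 0)], fun m h => by simp [Sys.evS, h]⟩
  | add _ _ a b =>
    obtain ⟨E, a⟩ := a
    obtain ⟨G, b⟩ := b
    exact ⟨E ++ G, fun m h => by
      simp only [← a m h, ← b m h, Sys.evS, List.map_append, List.sum_append]⟩
  | int c _ a =>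
    obtain ⟨E, a⟩ := a
    exact ⟨E.map fun s => (c * s.1, s.2), fun m h => by
      simp [← a m h, Sys.evS, ← List.sum_map_mul_left, Function.comp_def, mul_assoc]⟩
  | tm _ a =>
    obtain ⟨E, a⟩ := a
    refine ⟨E.map fun s => (s.1, s.2.1 + 1, s.2.2), fun m h => ?_⟩
    simp only [← a m h, Sys.evS, ← List.sum_map_mul_left, List.map_map]
    congr 1
    exact List.map_congr_left fun s _ => by simp only [Function.comp]; ring

end IsL

/-- Systems of affine equations. -/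
inductive QL {α : Type} : ((α → RatFunc F) → Prop) → Prop
  | eq {f g} : IsL f → IsL g → QL fun x => f x = g x
  | and {S T} : QL S → QL T → QL fun x => S x ∧ T x

theorem QL.comp {S : (α → RatFunc F) → Prop} (h : QL S) (g : α → (γ → RatFunc F) → RatFunc F)
    (hg : ∀ i, IsL (g i)) : QL fun x => S fun i => g i x := by
  induction h with
  | eq a b => exact .eq (a.comp g hg) (b.comp g hg)
  | and _ _ a b => exact a.and b

theorem QL.eqns {S : (α → RatFunc F) → Prop} (h : QL S) (e : α → ℕ) : ∃ L : List Sys.Eqn,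
    ∀ m : ℕ → RatFunc F, m 0 = 1 →
      ((∀ E ∈ L, Sys.evS RatFunc.X m E = 0) ↔ S fun i => m (e i)) := by
  induction h with
  | eq a b =>
    obtain ⟨E, h⟩ := (a.sub b).eqn e
    exact ⟨[E], fun m k => by simp [h m k, sub_eq_zero]⟩
  | and _ _ a b =>
    obtain ⟨L, a⟩ := a
    obtain ⟨M, b⟩ := b
    exact ⟨L ++ M, fun m k => by rw [List.forall_mem_append, a m k, b m k]⟩

def tb (p s u : ℕ) : ℕ :=
  (([[1, 0, 0, 0, 0, 0, 0], [0, 1, 0, 0, 0, 0, 0], [0, 0, 1, 0, 0, 0, 0], [0, 0, 0, 1, 0, 0, 0],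
    [0, 0, 0, 0, 1, 0, 0], [0, 0, 0, p - 1, 1, p, 0], [0, 0, p - 1, 0, 1, 0, p]] :
      List (List ℕ)).getD s []).getD u 0

noncomputable def mn (p : ℕ) (z : ℕ → RatFunc F) (s : ℕ) : RatFunc F :=
  ∏ u ∈ range 7, z u ^ tb p s u

theorem mn_val (p : ℕ) (z : ℕ → RatFunc F) : mn p z 0 = z 0 ∧ mn p z 1 = z 1 ∧ mn p z 2 = z 2 ∧
    mn p z 3 = z 3 ∧ mn p z 4 = z 4 ∧ mn p z 5 = z 3 ^ (p - 1) * z 4 * z 5 ^ p ∧
    mn p z 6 = z 2 ^ (p - 1) * z 4 * z 6 ^ p := by
  simp [mn, prod_range_succ, tb]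

def LD (p : ℕ) (S : (α → RatFunc F) → Prop) : Prop :=
  ∃ (β : Type) (_ : Encodable β) (Q : (α ⊕ β × Fin 7 → RatFunc F) → Prop), QL Q ∧
    ∀ x, S x ↔ ∃ z : β → ℕ → RatFunc F, Q (Sum.elim x fun b => mn p (z b.1) b.2)

/-- The relation given by one group of variables. -/
def JJ (p : ℕ) (a b : RatFunc F) : Prop := ∃ z : ℕ → RatFunc F,
  mn p z 0 = a + RatFunc.X ∧ mn p z 1 = b + 1 - RatFunc.X ∧ mn p z 2 = mn p z 0 - 1 ∧
  mn p z 3 = mn p z 1 - 1 ∧ mn p z 4 = mn p z 1 - mn p z 0 ∧ mn p z 0 = RatFunc.X * mn p z 5 ∧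
  mn p z 1 = RatFunc.X * mn p z 6 - mn p z 6

variable {p : ℕ}

namespace LD

variable {S T : (α → RatFunc F) → Prop} {f g : (α → RatFunc F) → RatFunc F}

theorem of_iff (h : LD p S) (e : ∀ x, T x ↔ S x) : LD p T := (funext fun x => propext (e x)) ▸ h

theorem eq (h : IsL f) (k : IsL g) : LD p fun x => f x = g x :=
  ⟨Unit, inferInstance, _, .eq (h.ren .inl) (k.ren .inl), fun x => by simp⟩

theorem comp (h : LD p S) (g : α → (γ → RatFunc F) → RatFunc F) (hg : ∀ i, IsL (g i)) :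
    LD p fun x => S fun i => g i x := by
  obtain ⟨β, _, Q, hQ, e⟩ := h
  refine ⟨β, inferInstance, _, hQ.comp (Sum.elim (fun i x => g i fun j => x (.inl j))
    fun b x => x (.inr b)) (Sum.rec (fun i => (hg i).ren _) fun _ => .var _), fun x => ?_⟩
  refine (e _).trans (exists_congr fun y => iff_of_eq (congrArg Q ?_))
  funext o; cases o <;> rfl

theorem exB {β : Type} [Encodable β] {S : (β → RatFunc F) → (α → RatFunc F) → Prop}
    (h : LD p fun x : α ⊕ β → RatFunc F => S (fun b => x (.inr b)) fun a => x (.inl a)) :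
    LD p fun x => ∃ y, S y x := by
  obtain ⟨δ, _, Q, hQ, e⟩ := h
  refine ⟨β ⊕ δ, inferInstance, _, hQ.comp (fun o x => x (Sum.elim (Sum.elim Sum.inl fun b =>
    Sum.inr (Sum.inl b, 0)) (fun d => Sum.inr (Sum.inr d.1, d.2)) o)) fun _ => .var _,
    fun x => ⟨fun ⟨y, h⟩ => ?_, fun ⟨z, h⟩ => ⟨fun b => z (.inl b) 0,
      (e (Sum.elim x fun b => z (.inl b) 0)).2 ⟨fun d => z (.inr d), (congrArg Q ?_).mp h⟩⟩⟩⟩
  · obtain ⟨z, hz⟩ := (e (Sum.elim x y)).1 h
    refine ⟨Sum.elim (fun b _ => y b) z, (congrArg Q ?_).mp hz⟩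
    funext o; rcases o with (_ | _) | _
    exacts [rfl, (mn_val p fun _ => _).1.symm, rfl]
  · funext o; rcases o with (_ | _) | _
    exacts [rfl, (mn_val p _).1, rfl]

theorem ex {S : RatFunc F → (α → RatFunc F) → Prop}
    (h : LD p fun x : Option α → RatFunc F => S (x none) fun a => x (some a)) :
    LD p fun x => ∃ y, S y x :=
  (exB (β := Unit) (S := fun y x => S (y ()) x) (h.comp
    (fun o x => x (o.elim (Sum.inr ()) Sum.inl)) fun _ => .var _)).of_iff
    fun _ => ⟨fun ⟨y, h⟩ => ⟨fun _ => y, h⟩, fun ⟨_, h⟩ => ⟨_, h⟩⟩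

theorem and (h : LD p S) (k : LD p T) : LD p fun x => S x ∧ T x := by
  obtain ⟨β, _, Q, hQ, e⟩ := h
  obtain ⟨δ, _, R, hR, e'⟩ := k
  have a1 : ∀ (x : α → RatFunc F) (z : β ⊕ δ → ℕ → RatFunc F), (fun i => Sum.elim x
    (fun b : (β ⊕ δ) × Fin 7 => mn p (z b.1) b.2) (Sum.map id (Prod.map .inl id) i)) =
      Sum.elim x fun b => mn p (z (.inl b.1)) b.2 := fun x y => by
    funext o; cases o <;> rfl
  have a2 : ∀ (x : α → RatFunc F) (z : β ⊕ δ → ℕ → RatFunc F), (fun i => Sum.elim x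
    (fun b : (β ⊕ δ) × Fin 7 => mn p (z b.1) b.2) (Sum.map id (Prod.map .inr id) i)) =
      Sum.elim x fun b => mn p (z (.inr b.1)) b.2 := fun x y => by
    funext o; cases o <;> rfl
  refine ⟨β ⊕ δ, inferInstance, _,
    (hQ.comp (fun o x => x (Sum.map id (Prod.map .inl id) o)) fun _ => .var _).and
    (hR.comp (fun o x => x (Sum.map id (Prod.map .inr id) o)) fun _ => .var _), fun x => ?_⟩
  simp only [a1, a2, e, e']
  exact ⟨fun ⟨⟨y, h⟩, z, k⟩ => ⟨Sum.elim y z, h, k⟩, fun ⟨z, h, k⟩ =>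
    ⟨⟨fun b => z (.inl b), h⟩, fun b => z (.inr b), k⟩⟩

theorem jj (h : IsL f) (k : IsL g) : LD p fun x => JJ p (f x) (g x) := by
  let v : Fin 7 → α ⊕ Unit × Fin 7 := fun s => .inr ((), s)
  refine ⟨Unit, inferInstance, fun m => m (v 0) = (f fun i => m (.inl i)) + RatFunc.X ∧
    m (v 1) = (g fun i => m (.inl i)) + 1 - RatFunc.X ∧ m (v 2) = m (v 0) - 1 ∧
    m (v 3) = m (v 1) - 1 ∧ m (v 4) = m (v 1) - m (v 0) ∧ m (v 0) = RatFunc.X * m (v 5) ∧
    m (v 1) = RatFunc.X * m (v 6) - m (v 6), ?_,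
    fun x => ⟨fun ⟨z, h⟩ => ⟨fun _ => z, h⟩, fun ⟨z, h⟩ => ⟨z (), h⟩⟩⟩
  repeat' with_reducible first
    | apply QL.and | apply QL.eq | apply IsL.add | apply IsL.sub | apply IsL.tm | exact .var _
    | exact .tt | exact .one | exact h.ren _ | exact k.ren _

end LD

theorem X_ne_one : (RatFunc.X : RatFunc F) - 1 ≠ 0 := fun h => by
  have := congrArg (vl (Polynomial.idealX F)) (sub_eq_zero.1 h)
  simp at this

variable [hpp : Fq F p]

theorem JJ.sound {a b : RatFunc F} (h : JJ p a b) : a * b = RatFunc.X * (1 - RatFunc.X) := by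
  obtain ⟨z, h0, h1, h2, h3, h4, h5, h6⟩ := h
  obtain ⟨m0, m1, m2, m3, m4, m5, m6⟩ := mn_val p z
  simp only [m0, m1, m2, m3, m4, m5, m6] at *
  obtain ⟨j, rfl⟩ := Nat.exists_eq_succ_of_ne_zero (neq (p := p) F)
  simp only [Nat.succ_eq_add_one, Nat.add_sub_cancel] at *
  suffices z 0 * z 3 = RatFunc.X * z 4 by
    rw [h3, h4, h0, h1] at this
    linear_combination this
  by_cases hw : z 4 = 0
  · rw [h5, hw]; ring
  have e : RatFunc.X * (z 3 * z 5 - z 2 * z 6) ^ (j + 1) = (1 - z 2 * z 6) ^ (j + 1) := by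
    refine mul_left_cancel₀ hw ?_
    rw [subq, subq, mul_pow, mul_pow, pow_succ (z 3), pow_succ (z 2)]
    linear_combination z 2 * h6 - z 3 * h5 + z 0 * h3 - z 1 * h2 - h4
  have e1 : z 3 * z 5 - z 2 * z 6 = 0 := by
    by_contra e1
    refine den_ne (p := j + 1) ((1 - z 2 * z 6) / (z 3 * z 5 - z 2 * z 6)) ?_
    rw [div_pow, ← e, mul_div_cancel_right₀ _ (pow_ne_zero _ e1), sub_self]
  rw [e1, zero_pow j.succ_ne_zero, mul_zero, eq_comm, pow_eq_zero_iff j.succ_ne_zero] at e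
  have e2 : (z 3 * z 5) ^ (j + 1) = 1 := by rw [show z 3 * z 5 = 1 by linear_combination e1 - e, one_pow]
  rw [mul_pow, pow_succ (z 3)] at e2
  linear_combination z 3 * h5 + RatFunc.X * z 4 * e2

theorem JJ.complete {a : RatFunc F} (h0 : a ≠ 0) (h1 : a ≠ 1 - RatFunc.X) :
    JJ p a (RatFunc.X * (1 - RatFunc.X) / a) := by
  obtain ⟨b, hb, e⟩ : ∃ b, a * b = RatFunc.X * (1 - RatFunc.X) ∧
    RatFunc.X * (1 - RatFunc.X) / a = b := ⟨_, mul_div_cancel₀ _ h0, rfl⟩
  have h2 : a + RatFunc.X - 1 ≠ 0 := fun h => h1 (by linear_combination h)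
  have h3 : b - RatFunc.X ≠ 0 := fun h => h1 (mul_left_cancel₀ RatFunc.X_ne_zero
    (by linear_combination hb - a * h))
  obtain ⟨j, rfl⟩ := Nat.exists_eq_succ_of_ne_zero (neq (p := p) F)
  refine ⟨fun s => [a + RatFunc.X, b + 1 - RatFunc.X, a + RatFunc.X - 1, b - RatFunc.X,
    b + 1 - RatFunc.X - (a + RatFunc.X), (b - RatFunc.X)⁻¹, (a + RatFunc.X - 1)⁻¹].getD s 0, ?_⟩
  simp only [mn_val, List.getD_cons_succ, List.getD_cons_zero, e, Nat.succ_eq_add_one,
    Nat.add_sub_cancel, inv_pow, true_and]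
  refine ⟨by ring, ?_, ?_⟩ <;> field_simp
  · linear_combination (b - RatFunc.X) ^ j * hb
  · linear_combination (a + RatFunc.X - 1) ^ j * hb

end Pool.Agent.Lib.MP_c72338_lc.Ph
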