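import Pool.Agent.Lib.MP_c72338_lc.Ph5

/-! Multiplication is defined by linear equations in independent monomials. -/

namespace Pool.Agent.Lib.MP_c72338_lc.Ph

open Finset

variable {F : Type} [Field F] {α : Type} {p : ℕ}

/-- The identity of Hua. -/
def TT (p : ℕ) (a s d : RatFunc F) : Prop := ∃ s' a' b' c : RatFunc F, JJ p s s' ∧ JJ p a a' ∧
  JJ p (s' - a) b' ∧ JJ p (a' + b') c ∧ d = RatFunc.X * (a - c) - RatFunc.X * (RatFunc.X * (a - c))

theorem LD.tt {f g k : (α → RatFunc F) → RatFunc F} (hf : IsL f) (hg : IsL g) (hk : IsL k) :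
    LD p fun x => TT p (f x) (g x) (k x) := by
  unfold TT
  repeat' with_reducible first
    | apply LD.ex | apply LD.and | apply LD.jj | apply LD.eq | apply IsL.add | apply IsL.sub
    | apply IsL.tm | exact .var _ | exact hf.ren _ | exact hg.ren _ | exact hk.ren _

theorem kap_ne : (RatFunc.X * (1 - RatFunc.X) : RatFunc F) ≠ 0 :=
  mul_ne_zero RatFunc.X_ne_zero fun h => X_ne_one (F := F) (by linear_combination -h)

instance : Infinite (RatFunc F) :=
  .of_injective _ (IsFractionRing.injective (Polynomial F) (RatFunc F))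

variable [hpp : Fq F p]

theorem TT.sound {a s d : RatFunc F} (h : TT p a s d) : d = a ^ 2 * s := by
  obtain ⟨s', a', b', c, h1, h2, h3, h4, rfl⟩ := h
  have h5 : s' * (a - c) = a ^ 2 := mul_left_cancel₀ kap_ne (by
    linear_combination c * (s' - a) * h2.sound + c * a * h3.sound - a * (s' - a) * h4.sound)
  linear_combination s * h5 - (a - c) * h1.sound

theorem TT.complete {s : RatFunc F} (h0 : s ≠ 0) (h1 : s ≠ 1 - RatFunc.X) :
    {a | ¬ TT p a s (a ^ 2 * s)}.Finite := by
  have hk := kap_ne (F := F)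
  obtain ⟨κ, e⟩ : ∃ κ : RatFunc F, κ = RatFunc.X * (1 - RatFunc.X) := ⟨_, rfl⟩
  have hJ : ∀ a : RatFunc F, a ≠ 0 → a ≠ 1 - RatFunc.X → JJ p a (κ / a) :=
    fun a h k => e ▸ JJ.complete h k
  rw [← e] at hk
  have h2 : (Polynomial.C (κ * (κ / s)) - Polynomial.C (1 - RatFunc.X) * Polynomial.X *
      (Polynomial.C (κ / s) - Polynomial.X)) ≠ 0 := fun h => by
    simpa [hk, h0] using congrArg (Polynomial.eval 0) h
  refine ((Polynomial.finite_setOfPred_isRoot h2).union (Set.toFinite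
    {0, 1 - RatFunc.X, κ / s, κ / s - (1 - RatFunc.X)})).subset fun a ha => ?_
  by_contra h
  simp only [Set.mem_union, Set.mem_ofPred_eq, Set.mem_insert_iff, Set.mem_singleton_iff, not_or,
    Polynomial.IsRoot, Polynomial.eval_sub, Polynomial.eval_mul, Polynomial.eval_C,
    Polynomial.eval_X] at h
  obtain ⟨h3, h4, h5, h6, h7⟩ := h
  have h8 : κ / s - a ≠ 0 := sub_ne_zero.2 (Ne.symm h6)
  have h9 : κ / a + κ / (κ / s - a) = κ * (κ / s) / (a * (κ / s - a)) := by
    generalize κ / s = u at *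
    field_simp
    ring
  have h10 : κ * (κ / s) ≠ 0 := mul_ne_zero hk (div_ne_zero hk h0)
  refine ha ⟨_, _, _, _, hJ s h0 h1, hJ a h4 h5, hJ _ h8 fun h => h7 (by linear_combination -h),
    hJ _ (h9 ▸ div_ne_zero h10 (mul_ne_zero h4 h8)) fun h => h3 ?_, ?_⟩
  · rw [h9, div_eq_iff (mul_ne_zero h4 h8)] at h
    linear_combination h
  · rw [h9]
    have : ∀ c : RatFunc F, RatFunc.X * c - RatFunc.X * (RatFunc.X * c) = κ * c := fun c => by
      rw [e]; ring
    rw [this]
    field_simp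
    ring

theorem hua_iff (a s d : RatFunc F) : d = a ^ 2 * s ↔ ∃ ρ σ d1 d2 d3 d4 d5 d6 : RatFunc F,
    TT p (a + ρ) (s + σ) d1 ∧ TT p (a + RatFunc.X * ρ) (s + σ) d2 ∧ TT p ρ (s + σ) d3 ∧
    TT p (a + ρ) σ d4 ∧ TT p (a + RatFunc.X * ρ) σ d5 ∧ TT p ρ σ d6 ∧
    RatFunc.X * d - d = RatFunc.X * (d1 - d4) - (d2 - d5) +
      RatFunc.X * (RatFunc.X * (d3 - d6) - (d3 - d6)) := by
  constructor
  · rintro rfl
    obtain ⟨σ, hσ⟩ := (Set.toFinite ({0, 1 - RatFunc.X, -s, 1 - RatFunc.X - s} :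
      Set (RatFunc F))).exists_notMem
    simp only [Set.mem_insert_iff, Set.mem_singleton_iff, not_or] at hσ
    have h := (TT.complete (p := p) (s := s + σ) (fun h => hσ.2.2.1 (by linear_combination h))
      fun h => hσ.2.2.2 (by linear_combination h)).union (TT.complete (p := p) hσ.1 hσ.2.1)
    obtain ⟨ρ, hρ⟩ := ((h.union (h.preimage (add_right_injective a).injOn)).union
      (h.preimage (f := fun ρ => a + RatFunc.X * ρ) ((add_right_injective a).comp
        (mul_right_injective₀ RatFunc.X_ne_zero)).injOn)).exists_notMem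
    simp only [Set.mem_union, Set.mem_preimage, Set.mem_ofPred_eq, not_or, not_not] at hρ
    exact ⟨ρ, σ, _, _, _, _, _, _, hρ.1.2.1, hρ.2.1, hρ.1.1.1, hρ.1.2.2, hρ.2.2, hρ.1.1.2, by ring⟩
  · rintro ⟨ρ, σ, _, _, _, _, _, _, h1, h2, h3, h4, h5, h6, h⟩
    rw [h1.sound, h2.sound, h3.sound, h4.sound, h5.sound, h6.sound] at h
    exact mul_left_cancel₀ X_ne_one (by linear_combination h)

theorem LD.hua {f g k : (α → RatFunc F) → RatFunc F} (hf : IsL f) (hg : IsL g) (hk : IsL k) :
    LD p fun x => k x = f x ^ 2 * g x := by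
  simp only [hua_iff (p := p)]
  repeat' with_reducible first
    | apply LD.ex | apply LD.and | apply LD.tt | apply LD.eq | apply IsL.add | apply IsL.sub
    | apply IsL.tm | exact .var _ | exact hf.ren _ | exact hg.ren _ | exact hk.ren _

theorem LD.mul (i j l : α) : LD p fun x : α → RatFunc F => x l = x i * x j := by
  refine LD.of_iff (S := fun x => ∃ a b c d, a = x j ^ 2 * 1 ∧ b = x i ^ 2 * a ∧ b = x l ^ 2 * 1 ∧
    c = (x i + 1) ^ 2 * x j ∧ d = x i ^ 2 * x j ∧ x l + x l = c - d - x j) ?_ fun x => ⟨fun h =>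
      ⟨_, _, _, _, rfl, rfl, by rw [h]; ring, rfl, rfl, by rw [h]; ring⟩, ?_⟩
  · repeat' with_reducible first
      | apply LD.ex | apply LD.and | apply LD.hua | apply LD.eq | apply IsL.add | apply IsL.sub
      | exact .var _ | exact .one
  · rintro ⟨_, _, _, _, rfl, rfl, h, rfl, rfl, k⟩
    exact sub_eq_zero.1 (pow_eq_zero_iff two_ne_zero |>.1 (by linear_combination -h - x i * x j * k))

theorem IsP.ld {f : (α → RatFunc F) → RatFunc F} (h : IsP f) : ∀ (γ : Type) (e : α → γ) (j : γ),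
    LD p fun x : γ → RatFunc F => x j = f fun i => x (e i) := by
  induction h with
  | var i => exact fun _ _ _ => .eq (.var _) (.var _)
  | int c => exact fun _ _ _ => .eq (.var _) ((IsL.one.int c).of_eq fun _ => mul_one _)
  | tt => exact fun _ _ _ => .eq (.var _) .tt
  | @add f g _ _ a b =>
    exact fun γ e j => (LD.ex (S := fun u x => ∃ v, u = (f fun i => x (e i)) ∧
      v = (g fun i => x (e i)) ∧ x j = u + v) (.ex (.and (a _ _ _) (.and (b _ _ _)
        (.eq (.var _) (.add (.var _) (.var _))))))).of_iff fun _ => by simp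
  | @mul f g _ _ a b =>
    exact fun γ e j => (LD.ex (S := fun u x => ∃ v, u = (f fun i => x (e i)) ∧
      v = (g fun i => x (e i)) ∧ x j = u * v) (.ex (.and (a _ _ _) (.and (b _ _ _)
        (.mul _ _ _))))).of_iff fun _ => by simp

theorem Dio.ld {S : (α → RatFunc F) → Prop} (h : Dio S) : LD p S := by
  obtain ⟨β, _, f, hf, e⟩ := h
  refine (LD.exB (S := fun y x => ∃ u, u = f (Sum.elim x y) ∧ u = (0 : ℤ) * 1)
    (.ex (.and ((hf.ld _ some none).of_iff fun x => iff_of_eq (congrArg _ (congrArg f ?_)))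
      (.eq (.var _) (IsL.one.int 0))))).of_iff fun x => by simp [e]
  funext o; cases o <;> rfl

end Pool.Agent.Lib.MP_c72338_lc.Ph
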