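import Pool.Agent.Lib.MP_c72338_lc.Fin
import Pool.Agent.Lib.MP_c72338_lc.Defs
import Pool.Agent.Shared.Type2.Disc

/-! The construction as a computable map on lists of terms. -/

namespace Pool.Agent.Lib.MP_c72338_lc

open Finset Pool.Agent.Shared.Type2

abbrev Pl : Type := List (ℤ × List ℕ)

/-- The monomial as a list of variable numbers. -/
def idx (a : List ℕ) : List ℕ := (List.range a.length).flatMap fun i => List.replicate (a.getD i 0) i

/-- Expansion of `c ∏ (y (i + 1) - y 0)`. -/
def expand (c : ℤ) (l : List ℕ) : Pl :=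
  l.foldr (fun i s => s.flatMap fun t => [(t.1, (i + 1) :: t.2), (-t.1, 0 :: t.2)]) [(c, [])]

def shift (f : Pl) : Pl := f.flatMap fun t => if t.1 = 0 then [] else expand t.1 (idx t.2)

def nv (f : Pl) : ℕ := (f.map fun t => t.2.length).foldr (fun a b => a + b) 0 + 1

def cnt (p : ℕ) (l : List ℕ) : ℕ := l.foldr (fun a n => if a = p then n + 1 else n) 0

def eOf (g : Pl) (j p : ℕ) : ℕ := cnt p (g.getD j (0, [])).2

def cOf (g : Pl) (j : ℕ) : ℤ := (g.getD j (0, [])).1

def out (m : ℕ) (g : Pl) : Pl :=
  (1, (vars m g.length).map fun _ => 0) :: (vars m g.length).map fun v =>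
    (coef (cOf g) v, (vars m g.length).map fun u => expo m g.length (eOf g) v u)

def red (f : Pl) : ℕ × Pl := ((vars (nv f) (shift f).length).length, out (nv f) (shift f))

section comp

instance repInt : Rep ℤ := ⟨fun a _ => Encodable.encode a⟩
instance : Disc ℤ := disc_of_enc

variable {X : Type} [Rep X]

@[fun_prop] theorem td_neg {f : X → ℤ} (hf : TD f) : TD fun x => -f x := .prim prim_neg hf
@[fun_prop] theorem td_mul {f g : X → ℤ} (hf : TD f) (hg : TD g) : TD fun x => f x * g x :=
  .prim₂ prim_mul hf hg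

@[fun_prop] theorem td_idx {a : X → List ℕ} (ha : TD a) : TD fun x => idx (a x) := by
  unfold idx; fun_prop
@[fun_prop] theorem td_expand {c : X → ℤ} {a : X → List ℕ} (hc : TD c) (ha : TD a) :
    TD fun x => expand (c x) (a x) := by
  unfold expand; fun_prop
@[fun_prop] theorem td_shift {f : X → Pl} (hf : TD f) : TD fun x => shift (f x) := by
  unfold shift; fun_prop
@[fun_prop] theorem td_nv {f : X → Pl} (hf : TD f) : TD fun x => nv (f x) := by
  unfold nv; fun_prop
@[fun_prop] theorem td_eOf {f : X → Pl} {j p : X → ℕ} (hf : TD f) (hj : TD j) (hp : TD p) :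
    TD fun x => eOf (f x) (j x) (p x) := by
  unfold eOf cnt; fun_prop
@[fun_prop] theorem td_cOf {f : X → Pl} {j : X → ℕ} (hf : TD f) (hj : TD j) :
    TD fun x => cOf (f x) (j x) := by
  unfold cOf; fun_prop
@[fun_prop] theorem td_vars {m N : X → ℕ} (hm : TD m) (hN : TD N) :
    TD fun x => vars (m x) (N x) := by
  unfold vars; fun_prop
@[fun_prop] theorem td_isX {u : X → Cd} (hu : TD u) : TD fun x => isX (u x) := by
  unfold isX; fun_prop
theorem td_base {N : X → ℕ} {g : X → Pl} {v u : X → Cd} (hN : TD N) (hg : TD g) (hv : TD v)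
    (hu : TD u) : TD fun x => base (N x) (eOf (g x)) (v x) (u x) := by
  unfold base; fun_prop
theorem td_coef {g : X → Pl} {v : X → Cd} (hg : TD g) (hv : TD v) :
    TD fun x => coef (cOf (g x)) (v x) := by
  unfold coef; fun_prop
theorem td_deg {m N : X → ℕ} {g : X → Pl} {v : X → Cd} (hm : TD m) (hN : TD N) (hg : TD g)
    (hv : TD v) : TD fun x => deg (m x) (N x) (eOf (g x)) (v x) :=
  .foldr (.map (td_vars hm hN) (.ite' (by fun_prop)
    (td_base (by fun_prop) (by fun_prop) (by fun_prop) (by fun_prop)) (.const _))) (.const _)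
    (by fun_prop)
theorem td_expo {m N : X → ℕ} {g : X → Pl} {v u : X → Cd} (hm : TD m) (hN : TD N) (hg : TD g)
    (hv : TD v) (hu : TD u) : TD fun x => expo (m x) (N x) (eOf (g x)) (v x) (u x) :=
  .add (td_base hN hg hv hu) (.ite' (by fun_prop) (.const _) (td_deg hm hN hg hv))
theorem td_out {m : X → ℕ} {g : X → Pl} (hm : TD m) (hg : TD g) : TD fun x => out (m x) (g x) :=
  .cons (by fun_prop) (.map (by fun_prop) (.pair (td_coef (by fun_prop) (by fun_prop))
    (.map (by fun_prop) (td_expo (by fun_prop) (by fun_prop) (by fun_prop) (by fun_prop)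
      (by fun_prop)))))

theorem computable_red : Computable red :=
  TD.computable (.pair (by fun_prop) (td_out (by fun_prop) (by fun_prop)))

end comp

variable {R : Type} [CommRing R]

/-- Value of a polynomial whose monomials are lists of variable numbers. -/
def evI (g : Pl) (y : ℕ → R) : R := (g.map fun t => (t.1 : R) * (t.2.map y).prod).sum

theorem evI_flatMap {α : Type} (l : List α) (F : α → Pl) (y : ℕ → R) :
    evI (l.flatMap F) y = (l.map fun a => evI (F a) y).sum := by
  induction l <;> simp_all [evI]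

theorem evI_expand (c : ℤ) (l : List ℕ) (y : ℕ → R) :
    evI (expand c l) y = c * (l.map fun i => y (i + 1) - y 0).prod := by
  induction l with
  | nil => simp [evI, expand]
  | cons i l ih =>
    have : ∀ s : Pl, evI (s.flatMap fun t => [(t.1, (i + 1) :: t.2), (-t.1, 0 :: t.2)]) y =
        (y (i + 1) - y 0) * evI s y := fun s => by
      induction s with
      | nil => simp [evI]
      | cons t s h => simp only [evI] at h ⊢; simp [h]; ring
    rw [expand, List.foldr_cons, this, ← expand, ih]
    simp; ring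

theorem prod_idx (a : List ℕ) (x : ℕ → R) :
    ((idx a).map x).prod = ∏ i : Fin a.length, x i ^ a[i] := by
  have h2 : ∀ (l : List ℕ) (F : ℕ → List ℕ),
      ((l.flatMap F).map x).prod = (l.map fun j => ((F j).map x).prod).prod := by
    intro l F; induction l <;> simp [*]
  rw [idx, h2, ← List.prod_toFinset _ List.nodup_range, List.toFinset_range, prod_range]
  exact prod_congr rfl fun i _ => by simp

theorem evI_shift (f : Pl) (y : ℕ → R) : evI (shift f) y = ev f fun i => y (i + 1) - y 0 := by
  rw [shift, evI_flatMap, ev]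
  congr 1
  refine List.map_congr_left fun t _ => ?_
  split_ifs with h
  · simp [evI, h]
  · rw [evI_expand, prod_idx]

theorem mem_expand {c : ℤ} {l : List ℕ} {n : ℕ} (hc : c ≠ 0) (hl : ∀ i ∈ l, i < n) :
    ∀ t ∈ expand c l, t.1 ≠ 0 ∧ ∀ i ∈ t.2, i < n + 1 := by
  induction l with
  | nil => simp [expand, hc]
  | cons i l ih =>
    have := ih fun j hj => hl j (by simp [hj])
    have hi := hl i (by simp)
    simp only [expand, List.foldr_cons, List.mem_flatMap, List.mem_cons, List.not_mem_nil,
      or_false] at this ⊢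
    rintro _ ⟨t, ht, rfl | rfl⟩ <;> simpa [hi] using this t ht

theorem mem_shift (f : Pl) : ∀ t ∈ shift f, t.1 ≠ 0 ∧ ∀ i ∈ t.2, i < nv f := by
  simp only [shift, List.mem_flatMap]
  rintro t ⟨s, hs, ht⟩
  split_ifs at ht with h
  · simp at ht
  refine mem_expand h (fun i hi => ?_) t ht
  simp only [idx, List.mem_flatMap, List.mem_range, List.mem_replicate] at hi
  obtain ⟨_, h1, -, rfl⟩ := hi
  exact h1.trans_le (List.single_le_sum (l := f.map fun t => t.2.length) (by simp) _
    (List.mem_map_of_mem hs))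

theorem prod_cnt {m : ℕ} (l : List ℕ) (hl : ∀ i ∈ l, i < m) (y : ℕ → R) :
    ∏ p ∈ range m, y p ^ cnt p l = (l.map y).prod := by
  induction l with
  | nil => simp [cnt]
  | cons i l ih =>
    have e : ∀ p, cnt p (i :: l) = (if i = p then 1 else 0) + cnt p l := fun p => by
      simp only [cnt, List.foldr_cons]; split_ifs <;> omega
    simp only [e, pow_add, prod_mul_distrib, ih fun j hj => hl j (by simp [hj])]
    simp [hl i (by simp)]

theorem sum_of {m : ℕ} (g : Pl) (hg : ∀ t ∈ g, ∀ i ∈ t.2, i < m) (y : ℕ → R) :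
    ∑ j ∈ range g.length, (cOf g j : R) * ∏ p ∈ range m, y p ^ eOf g j p = evI g y := by
  rw [evI, ← Fin.sum_univ_fun_getElem, sum_range]
  refine sum_congr rfl fun j _ => ?_
  simp only [cOf, eOf, List.getD_eq_getElem _ _ j.2]
  rw [prod_cnt _ (hg _ (List.getElem_mem _))]

theorem out_eq (m : ℕ) (g : Pl) : out m g = List.ofFn fun j =>
    (finC m g.length (cOf g) j, List.ofFn (finA m g.length (eOf g) j)) := by
  rw [List.ofFn_succ, out]
  congr 1
  · simp only [finC, finA, Fin.cons_zero]
    congr 1
    exact List.ext_getElem (by simp) fun i h1 h2 => by simp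
  · refine List.ext_getElem (by simp) fun j h1 h2 => ?_
    simp only [finC, finA, List.getElem_map, List.getElem_ofFn, Fin.cons_succ, Fin.getElem_fin]
    congr 1
    exact List.ext_getElem (by simp) fun i h1 h2 => by simp

theorem ev_ofFn {k n : ℕ} (c : Fin k → ℤ) (a : Fin k → Fin n → ℕ) (x : ℕ → R) :
    ev (List.ofFn fun j => (c j, List.ofFn (a j))) x = ∑ j, (c j : R) * ∏ i : Fin n, x i ^ a j i := by
  rw [ev, List.map_ofFn, List.sum_ofFn]
  refine sum_congr rfl fun j _ => congrArg (fun t => (c j : R) * t) ?_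
  exact Fintype.prod_equiv (finCongr (by simp)) _ _ fun i => by simp; rfl

theorem honest_ofFn {n : ℕ} (c : Fin (n + 1) → ℤ) (a : Fin (n + 1) → Fin n → ℕ) (hc : ∀ j, c j ≠ 0)
    (ha : AffineIndependent ℚ fun j i => (a j i : ℚ)) :
    Honest n (List.ofFn fun j => (c j, List.ofFn (a j))) := by
  refine ⟨List.length_ofFn, fun t ht => ?_, ?_⟩
  · obtain ⟨j, rfl⟩ := List.mem_ofFn.1 ht
    exact ⟨hc j, List.length_ofFn⟩
  · convert ha.comp_embedding (finCongr List.length_ofFn).toEmbedding using 1
    funext j i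
    simp only [Fin.getElem_fin, List.getElem_ofFn]
    rw [List.getD_eq_getElem _ _ (by simp), List.getElem_ofFn]
    rfl

theorem honest_red (f : Pl) : Honest (red f).1 (red f).2 := by
  simp only [red, out_eq]
  refine honest_ofFn _ _ (finC_ne _ _ _ fun j hj => ?_) (fin_indep _ _ _)
  rw [cOf, List.getD_eq_getElem _ _ hj]
  exact (mem_shift f _ (List.getElem_mem _)).1

variable [LinearOrder R] [IsStrictOrderedRing R]

theorem red_complete (f : Pl) (x : ℕ → R) (h : ev f x = 0) :
    ∃ z : ℕ → R, (∀ i, 1 ≤ z i) ∧ ev (red f).2 z = 0 := by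
  have hs : 0 ≤ ∑ i ∈ range (nv f), |x i| := sum_nonneg fun _ _ => abs_nonneg _
  obtain ⟨z, hz, h0⟩ := fin_complete (nv f) (shift f).length (eOf (shift f)) (cOf (shift f))
    (fun p => (Nat.casesOn p (1 + ∑ i ∈ range (nv f), |x i|)
      (fun i => x i + (1 + ∑ i ∈ range (nv f), |x i|)) : R))
    (fun p hp => by
      cases p with
      | zero => simpa using hs
      | succ i =>
        have := single_le_sum (f := fun i => |x i|) (fun _ _ => abs_nonneg _)
          (mem_range.2 (show i < nv f by omega))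
        change 1 ≤ x i + _
        linarith [neg_abs_le (x i)])
    (by rw [sum_of _ fun t ht => (mem_shift f t ht).2, evI_shift]; simpa using h)
  refine ⟨fun i => if h : i < _ then z ⟨i, h⟩ else 1, fun i => ?_, ?_⟩
  · beta_reduce
    split_ifs
    exacts [hz _, le_rfl]
  · simp only [red, out_eq, ev_ofFn]
    simpa using h0

theorem red_sound (f : Pl) (z : ℕ → R) (hz : ∀ i, z i = 0 ∨ 1 ≤ |z i|) (h : ev (red f).2 z = 0) :
    ∃ x : ℕ → R, ev f x = 0 := by
  simp only [red, out_eq, ev_ofFn] at h
  obtain ⟨y, hy⟩ := fin_sound _ _ _ _ (fun i => z i) (fun _ => hz _) h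
  rw [sum_of _ fun t ht => (mem_shift f t ht).2, evI_shift] at hy
  exact ⟨_, hy⟩

end Pool.Agent.Lib.MP_c72338_lc
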